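import Mathlib
import Pool.Agent.Y247.KB.Main

/-!
# The first Dirichlet eigenvalue of an open set of finite volume is positive
-/

set_option autoImplicit false

open MeasureTheory Filter Topology Metric
open scoped NNReal ENNReal

namespace Pool.Agent.Y247.CN

open Pool.Agent.Helper949.TB Pool.Agent.Y247.KB

theorem sq_eLpNorm_two {N : ℕ} {F : Type} [NormedAddCommGroup F] {g : E N → F}
    (hg : Integrable (fun x => ‖g x‖ ^ 2)) :
    (eLpNorm g 2 volume) ^ (2 : ℝ) = ENNReal.ofReal (∫ x, ‖g x‖ ^ 2) := by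
  have h1 : (eLpNorm g ((2 : ℝ≥0) : ℝ≥0∞) volume) ^ ((2 : ℝ≥0) : ℝ)
      = ∫⁻ x, ‖g x‖ₑ ^ ((2 : ℝ≥0) : ℝ) := eLpNorm_nnreal_pow_eq_lintegral (by norm_num)
  have h2 : ((2 : ℝ≥0) : ℝ≥0∞) = 2 := by norm_num
  have h3 : ((2 : ℝ≥0) : ℝ) = 2 := by norm_num
  rw [h2, h3] at h1
  rw [h1, ofReal_integral_eq_lintegral_ofReal hg (Filter.Eventually.of_forall fun x => sq_nonneg _)]
  refine lintegral_congr fun x => ?_
  rw [ENNReal.rpow_ofNat, ENNReal.ofReal_pow (norm_nonneg _), ofReal_norm]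

theorem holder_real {N : ℕ} {Ω : Set (E N)} {g : E N → ℝ} (hg : Continuous g)
    (hs : Function.support g ⊆ Ω) {p : ℝ≥0∞} (hp : p ≤ 2) :
    eLpNorm g p volume ≤ eLpNorm g 2 volume *
      volume Ω ^ (1 / p.toReal - 1 / (2 : ℝ≥0∞).toReal) := by
  have r1 : eLpNorm g p (volume.restrict Ω) = eLpNorm g p volume :=
    eLpNorm_restrict_eq_of_support_subset hs
  have r2 : eLpNorm g 2 (volume.restrict Ω) = eLpNorm g 2 volume :=
    eLpNorm_restrict_eq_of_support_subset hs
  rw [← r1, ← r2]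
  have h5 := eLpNorm_le_eLpNorm_mul_rpow_measure_univ hp
    (hg.aestronglyMeasurable (μ := volume.restrict Ω))
  rwa [Measure.restrict_apply_univ] at h5

theorem lam_one_pos {N : ℕ} (hN : 2 ≤ N) {Ω : Set (E N)} (hΩ : IsOpen Ω) (hne : Ω.Nonempty)
    (hv : volume Ω ≠ ⊤) : 0 < lam N 1 Ω := by
  have hNpos : (0 : ℝ) < N := by
    have : 0 < N := by omega
    exact_mod_cast this
  have hN2 : (2 : ℝ) ≤ N := by exact_mod_cast hN
  set p : ℝ≥0 := 2 * N / (N + 2) with hp
  have hpR : (p : ℝ) = 2 * N / (N + 2) := by rw [hp]; push_cast; ring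
  have hp1 : (1 : ℝ) ≤ p := by
    rw [hpR, le_div_iff₀ (by positivity)]
    linarith
  have hp1' : 1 ≤ p := by exact_mod_cast hp1
  have hp2 : (p : ℝ) ≤ 2 := by
    rw [hpR, div_le_iff₀ (by positivity)]
    linarith
  have hp2' : (p : ℝ≥0∞) ≤ 2 := by exact_mod_cast hp2
  set C : ℝ≥0 := eLpNormLESNormFDerivOfEqInnerConst (volume : Measure (E N)) p with hC
  set e : ℝ := 1 / (p : ℝ≥0∞).toReal - 1 / (2 : ℝ≥0∞).toReal with he
  have he0 : 0 ≤ e := by
    rw [he, ENNReal.coe_toReal, ENNReal.toReal_ofNat]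
    have : 1 / (2 : ℝ) ≤ 1 / (p : ℝ) := one_div_le_one_div_of_le (by linarith) hp2
    linarith
  have hW : volume Ω ^ e ≠ ⊤ := ENNReal.rpow_ne_top_of_nonneg he0 hv
  have key : ∀ f : E N → ℝ, IsTest Ω f →
      eLpNorm f 2 volume ≤ (C * volume Ω ^ e) * eLpNorm (fderiv ℝ f) 2 volume := by
    intro f hf
    obtain ⟨h1, h2, h3⟩ := hf
    have hs := eLpNorm_le_eLpNorm_fderiv_of_eq_inner (F' := ℝ) (volume : Measure (E N))
      (u := f) (h1.of_le (by exact_mod_cast le_top)) h2 (p := p) (p' := 2) hp1'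
      (by rw [finrank_euclideanSpace_fin]; omega)
      (by
        rw [finrank_euclideanSpace_fin, NNReal.coe_inv, hpR]
        push_cast
        field_simp
        ring)
    have hsupp : Function.support (fun x => ‖fderiv ℝ f x‖) ⊆ Ω := by
      intro x hx
      apply h3
      by_contra hcon
      rw [notMem_tsupport_iff_eventuallyEq] at hcon
      apply hx
      show ‖fderiv ℝ f x‖ = 0
      rw [hcon.fderiv_eq]
      simp
    have h4 : eLpNorm (fderiv ℝ f) p volume ≤ eLpNorm (fderiv ℝ f) 2 volume * volume Ω ^ e := by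
      have h5 := holder_real (h1.continuous_fderiv (by simp)).norm hsupp hp2'
      have n1 : eLpNorm (fun x => ‖fderiv ℝ f x‖) (p : ℝ≥0∞) volume
          = eLpNorm (fderiv ℝ f) (p : ℝ≥0∞) volume := eLpNorm_norm _
      have n2 : eLpNorm (fun x => ‖fderiv ℝ f x‖) 2 volume
          = eLpNorm (fderiv ℝ f) 2 volume := eLpNorm_norm _
      rw [n1, n2] at h5
      exact h5
    calc eLpNorm f 2 volume ≤ C * eLpNorm (fderiv ℝ f) p volume := by exact_mod_cast hs
      _ ≤ C * (eLpNorm (fderiv ℝ f) 2 volume * volume Ω ^ e) := by gcongr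
      _ = _ := by ring
  -- a positive real constant
  set K : ℝ := ((C : ℝ≥0∞) * volume Ω ^ e).toReal + 1 with hK
  have hKpos : 0 < K := by positivity
  have hKfin : (C : ℝ≥0∞) * volume Ω ^ e ≠ ⊤ := ENNReal.mul_ne_top ENNReal.coe_ne_top hW
  have hKle : (C : ℝ≥0∞) * volume Ω ^ e ≤ ENNReal.ofReal K := by
    rw [ENNReal.le_ofReal_iff_toReal_le hKfin hKpos.le]
    linarith
  have hmain : 1 / K ^ 2 ≤ lam N 1 Ω := by
    apply lam_lower N 1 le_rfl Ω hΩ hne (by omega)
    intro f hf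
    have h1 := key f hf
    have h2 : eLpNorm f 2 volume ≤ ENNReal.ofReal K * eLpNorm (fderiv ℝ f) 2 volume :=
      h1.trans (by gcongr)
    have h3 := ENNReal.rpow_le_rpow h2 (by norm_num : (0 : ℝ) ≤ 2)
    have i1 : Integrable (fun x => ‖f x‖ ^ 2) := by
      have := aux_int1 f hf.1 hf.2.1
      refine this.congr (Filter.Eventually.of_forall fun x => ?_)
      simp
    have i2 : Integrable (fun x => ‖fderiv ℝ f x‖ ^ 2) := aux_int2 f hf.1 hf.2.1
    rw [ENNReal.mul_rpow_of_nonneg _ _ (by norm_num), sq_eLpNorm_two i1, sq_eLpNorm_two i2,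
      ENNReal.rpow_ofNat, ← ENNReal.ofReal_pow hKpos.le, ← ENNReal.ofReal_mul (by positivity),
      ENNReal.ofReal_le_ofReal_iff (mul_nonneg (by positivity)
        (integral_nonneg fun x => sq_nonneg _))] at h3
    have h4 : ∫ x, ‖f x‖ ^ 2 = ∫ x, f x ^ 2 := by simp
    rw [h4] at h3
    rw [div_mul_eq_mul_div, one_mul, div_le_iff₀ (by positivity)]
    linarith
  exact lt_of_lt_of_le (by positivity) hmain

end Pool.Agent.Y247.CN
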