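import Pool.Agent.Y247.CN.Coord
import Pool.Agent.Y247.CN.Pos

/-!
# The inequality of Payne, Polya and Weinberger: `λ₂ ≤ (1 + 4 / N) λ₁`
-/

set_option autoImplicit false

open MeasureTheory Filter Topology Metric

namespace Pool.Agent.Y247.CN

open Pool.Agent.Helper949.TB Pool.Agent.Y247.KB

theorem ne_of_ray {N : ℕ} {W : Set (E N)} {c : ℝ} (h : c ∈ RaySet N 1 W) : W.Nonempty := by
  obtain ⟨V, hV, hVv⟩ := h
  have hVb : V ≠ ⊥ := by
    rintro rfl
    rw [finrank_bot] at hV
    omega
  obtain ⟨v, hvV, hv0⟩ := Submodule.exists_mem_ne_zero_of_ne_bot hVb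
  obtain ⟨x, hx⟩ := Function.ne_iff.1 hv0
  exact ⟨x, (hVv v hvV).2.2.1 (subset_tsupport v hx)⟩

theorem small_eps {η l C n : ℝ} (hη : 0 < η) :
    ∃ ε : ℝ, 0 < ε ∧ ε < η / 2 ∧
      4 / n * (ε + (l + ε) * Real.sqrt (ε * C)) < η / 2 ∧
      ε * (4 * (l + ε) / n * (1 + Real.sqrt (ε * C)) + l) < η ^ 2 / 4 := by
  have h1 : Continuous fun ε : ℝ => 4 / n * (ε + (l + ε) * Real.sqrt (ε * C)) := by fun_prop
  have h2 : Continuous fun ε : ℝ =>
      ε * (4 * (l + ε) / n * (1 + Real.sqrt (ε * C)) + l) := by fun_prop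
  have t1 : Tendsto (fun ε : ℝ => 4 / n * (ε + (l + ε) * Real.sqrt (ε * C))) (𝓝[>] 0) (𝓝 0) := by
    have := (h1.tendsto 0).mono_left (nhdsWithin_le_nhds (s := Set.Ioi 0))
    simpa using this
  have t2 : Tendsto (fun ε : ℝ => ε * (4 * (l + ε) / n * (1 + Real.sqrt (ε * C)) + l))
      (𝓝[>] 0) (𝓝 0) := by
    have := (h2.tendsto 0).mono_left (nhdsWithin_le_nhds (s := Set.Ioi 0))
    simpa using this
  have t3 : Tendsto (fun ε : ℝ => ε) (𝓝[>] 0) (𝓝 0) :=
    (continuous_id.tendsto 0).mono_left (nhdsWithin_le_nhds (s := Set.Ioi 0))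
  have ev := (t1.eventually_lt_const (show (0 : ℝ) < η / 2 by linarith)).and
    ((t2.eventually_lt_const (show (0 : ℝ) < η ^ 2 / 4 by positivity)).and
    ((t3.eventually_lt_const (show (0 : ℝ) < η / 2 by linarith)).and self_mem_nhdsWithin))
  obtain ⟨ε, e1, e2, e3, e4⟩ := ev.exists
  exact ⟨ε, e4, e3, e1, e2⟩

theorem form_neg {A B C : ℝ} (hA : 0 < A) (h : C ^ 2 ≤ A * B) (α β : ℝ) :
    0 ≤ α ^ 2 * A - 2 * α * β * C + β ^ 2 * B := by
  have h1 : 0 ≤ A * (α ^ 2 * A - 2 * α * β * C + β ^ 2 * B) := by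
    have : A * (α ^ 2 * A - 2 * α * β * C + β ^ 2 * B) =
        (A * α - β * C) ^ 2 + β ^ 2 * (A * B - C ^ 2) := by ring
    rw [this]
    have := mul_nonneg (sq_nonneg β) (sub_nonneg.2 h)
    nlinarith [sq_nonneg (A * α - β * C)]
  exact nonneg_of_mul_nonneg_right h1 hA

theorem ppw_bounded {N : ℕ} (hN : 2 ≤ N) {G : Set (E N)} (hGo : IsOpen G) (hGne : G.Nonempty)
    {M : ℝ} (hM : 0 < M) (hG : G ⊆ ball 0 M) :
    lam N 2 G ≤ (1 + 4 / (N : ℝ)) * lam N 1 G := by
  have hN1 : 1 ≤ N := by omega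
  have : NeZero N := ⟨by omega⟩
  have hNR : (0 : ℝ) < N := by
    have : 0 < N := by omega
    exact_mod_cast this
  have hGfin : volume G ≠ ⊤ := ((measure_mono hG).trans_lt measure_ball_lt_top).ne
  set l := lam N 1 G with hl
  have hlpos : 0 < l := lam_one_pos hN hGo hGne hGfin
  apply le_of_forall_pos_le_add
  intro η hη
  -- the choice of `ε`; we use the constant for `l + η`
  set C1 : ℝ := 32 * M ^ 2 + 32 * M ^ 4 * (l + η) with hC1
  have hC1pos : 0 < C1 := by positivity
  obtain ⟨ε, hε, hεη, hε1, hε2⟩ := small_eps (l := l) (C := C1) (n := (N : ℝ)) hη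
  -- a near-minimiser
  obtain ⟨c', hc', hc'lt⟩ : ∃ c' ∈ RaySet N 1 G, c' < l + ε :=
    exists_lt_of_csInf_lt (raySet_nonempty N 1 hN1 G hGo hGne)
      (show sInf (RaySet N 1 G) < l + ε by
        have : l < l + ε := by linarith
        exact this)
  obtain ⟨V, hV, hVv⟩ := hc'
  have hVb : V ≠ ⊥ := by
    rintro rfl
    rw [finrank_bot] at hV
    omega
  obtain ⟨u, huV, hu0⟩ := Submodule.exists_mem_ne_zero_of_ne_bot hVb
  obtain ⟨u1, u2, u3, u4⟩ := hVv u huV
  have hu : IsTest G u := ⟨u1, u2, u3⟩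
  set m : ℝ := ∫ x, u x * u x with hm
  have hmsq : ∫ x, u x ^ 2 = m := by rw [hm]; simp only [sq]
  have hmpos : 0 < m := by
    obtain ⟨x, hx⟩ := Function.ne_iff.1 hu0
    rw [← hmsq]
    have hs2 : HasCompactSupport (fun x => u x ^ 2) := by
      refine u2.mono ?_
      intro x hx
      rw [Function.mem_support] at hx ⊢
      intro h0
      rw [h0] at hx
      norm_num at hx
    apply (u1.continuous.pow 2).integral_pos_of_hasCompactSupport_nonneg_nonzero hs2
      (fun x => sq_nonneg _) (x := x)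
    exact pow_ne_zero 2 hx
  set D : ℝ := Dp u u with hD
  have hDle : D ≤ (l + ε) * m := by
    rw [D_eq, hmsq] at u4
    exact u4.trans (mul_le_mul_of_nonneg_right hc'lt.le hmpos.le)
  have hD0 : 0 ≤ D := by
    rw [hD, ← D_eq]
    exact integral_nonneg fun x => sq_nonneg _
  -- the coordinate
  obtain ⟨i, hi⟩ : ∃ i : Fin N, (∫ x, pd i u x * pd i u x) ≤ (l + ε) * m / N := by
    have hs : ∑ i : Fin N, (∫ x, pd i u x * pd i u x) ≤ ∑ i : Fin N, (l + ε) * m / N := by
      rw [sum_pd hu, Finset.sum_const, Finset.card_univ, Fintype.card_fin, nsmul_eq_mul,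
        mul_div_cancel₀ _ hNR.ne']
      exact hDle
    obtain ⟨i, -, hi⟩ := Finset.exists_le_of_sum_le Finset.univ_nonempty hs
    exact ⟨i, hi⟩
  -- the centre
  have hxi_int : Integrable (fun x : E N => x i * (u x * u x)) := by
    have hc : Continuous (fun x : E N => x i) := (EuclideanSpace.proj i : E N →L[ℝ] ℝ).continuous
    exact (hc.mul (u1.continuous.mul u1.continuous)).integrable_of_hasCompactSupport
      (HasCompactSupport.mul_left u2.mul_right)
  set a : ℝ := (∫ x : E N, x i * (u x * u x)) / m with ha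
  have haM : |a| ≤ M := by
    rw [ha, abs_div, abs_of_pos hmpos, div_le_iff₀ hmpos]
    refine (abs_integral_le_integral_abs).trans ?_
    rw [hm, ← integral_const_mul]
    apply integral_mono hxi_int.abs ((int_mul hu hu).const_mul _)
    intro x
    show |x i * (u x * u x)| ≤ M * (u x * u x)
    rw [abs_mul, abs_of_nonneg (mul_self_nonneg (u x))]
    by_cases hx : x ∈ tsupport u
    · have hxM : ‖x‖ < M := mem_ball_zero_iff.1 (hG (u3 hx))
      have hxi : |x i| ≤ M := by
        have := PiLp.norm_apply_le x i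
        rw [Real.norm_eq_abs] at this
        linarith
      exact mul_le_mul_of_nonneg_right hxi (mul_self_nonneg _)
    · rw [image_eq_zero_of_notMem_tsupport hx]
      simp
  set w : E N → ℝ := mu i a u with hw
  have htw : IsTest G w := mu_test i a hu
  set w2 : E N → ℝ := mu i a w with hw2
  have htw2 : IsTest G w2 := mu_test i a htw
  have horth : ∫ x, u x * w x = 0 := by
    have e1 : ∫ x, u x * w x = ∫ x : E N, (x i * (u x * u x) - a * (u x * u x)) := by
      refine integral_congr_ae (Filter.Eventually.of_forall fun x => ?_)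
      show u x * w x = x i * (u x * u x) - a * (u x * u x)
      rw [hw]
      simp only [mu]
      ring
    rw [e1, integral_sub hxi_int ((int_mul hu hu).const_mul _), integral_const_mul, ← hm, ha]
    field_simp
    ring
  set W : ℝ := ∫ x, w x * w x with hWdef
  have huw2 : ∫ x, u x * w2 x = W := by
    rw [hWdef]
    refine integral_congr_ae (Filter.Eventually.of_forall fun x => ?_)
    show u x * w2 x = w x * w x
    rw [hw2, hw]
    simp only [mu]
    ring
  have hW0 : 0 ≤ W := integral_nonneg fun x => mul_self_nonneg _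
  have hhardy : m ^ 2 ≤ 4 * (W * ((l + ε) * m / N)) := by
    have := hardy i a hu
    refine this.trans ?_
    have := mul_le_mul_of_nonneg_left hi hW0
    linarith
  have hlε : 0 < l + ε := by linarith
  have hmW : m ≤ 4 * (l + ε) / N * W := by
    have h1 : m * m ≤ m * (4 * (l + ε) / N * W) := by
      have : m * (4 * (l + ε) / N * W) = 4 * (W * ((l + ε) * m / N)) := by ring
      rw [this, ← sq]
      exact hhardy
    exact le_of_mul_le_mul_left h1 hmpos
  have hWpos : 0 < W := by
    rcases hW0.eq_or_lt with h | h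
    · rw [← h, mul_zero] at hmW
      linarith
    · exact h
  -- the near-orthogonality
  set σ : ℝ := Real.sqrt (ε * C1) with hσ
  have hσ0 : 0 ≤ σ := Real.sqrt_nonneg _
  have hQu : qf l u u ≤ ε * m := by
    unfold qf
    rw [← hm]
    nlinarith
  have hQu0 : 0 ≤ qf l u u := qf_nonneg hu
  have hQw2 : qf l w2 w2 ≤ C1 * m := by
    have h1 := D_mu2_le i hu hG hM haM
    have h2 : qf l w2 w2 ≤ Dp w2 w2 := by
      unfold qf
      have : 0 ≤ ∫ x, w2 x * w2 x := integral_nonneg fun x => mul_self_nonneg _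
      nlinarith
    refine h2.trans (h1.trans ?_)
    have h3 : D ≤ (l + η) * m :=
      hDle.trans (mul_le_mul_of_nonneg_right (by linarith) hmpos.le)
    have h4 : 32 * M ^ 4 * D ≤ 32 * M ^ 4 * ((l + η) * m) :=
      mul_le_mul_of_nonneg_left h3 (by positivity)
    rw [hC1]
    rw [← hm, ← hD]
    linarith
  have hq : qf l u w2 ≤ σ * m := by
    have h1 := qf_cs hu htw2
    rw [← hl] at h1
    have hQw20 : 0 ≤ qf l w2 w2 := qf_nonneg htw2
    have h2 : qf l u w2 ^ 2 ≤ (σ * m) ^ 2 := by
      refine h1.trans ?_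
      calc qf l u u * qf l w2 w2 ≤ (ε * m) * (C1 * m) :=
            mul_le_mul hQu hQw2 hQw20 (by positivity)
        _ = (σ * m) ^ 2 := by
            rw [mul_pow, hσ, Real.sq_sqrt (by positivity)]
            ring
    exact le_trans (le_abs_self _) (abs_le_of_sq_le_sq h2 (by positivity))
  have hDw : Dp w w ≤ (4 * (l + ε) / N * (1 + σ) + l) * W := by
    have h1 : Dp w w = m + Dp u w2 := D_mu i a hu
    have h2 : Dp u w2 = qf l u w2 + l * W := by
      unfold qf
      rw [huw2]
      ring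
    rw [h1, h2]
    have h3 : m * (1 + σ) ≤ (4 * (l + ε) / N * W) * (1 + σ) :=
      mul_le_mul_of_nonneg_right hmW (by linarith)
    nlinarith
  set Kw : ℝ := 4 * (l + ε) / N * (1 + σ) + l with hKw
  have hDuw : Dp u w ^ 2 ≤ (ε * m) * (Kw * W) := by
    have h1 := qf_cs hu htw
    rw [← hl] at h1
    have h2 : qf l u w = Dp u w := by
      unfold qf
      rw [horth, mul_zero, sub_zero]
    rw [h2] at h1
    refine h1.trans ?_
    have h3 : qf l w w ≤ Kw * W := by
      have : qf l w w ≤ Dp w w := by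
        unfold qf
        rw [← hWdef]
        nlinarith
      exact this.trans hDw
    exact mul_le_mul hQu h3 (qf_nonneg htw) (by positivity)
  -- conclusion
  set lam' : ℝ := (1 + 4 / (N : ℝ)) * l + η with hlam'
  have hA : η / 2 * m ≤ lam' * m - D := by
    have h1 : (l + ε) * m + η / 2 * m ≤ lam' * m := by
      have : l + ε + η / 2 ≤ lam' := by
        rw [hlam']
        have : 0 < 4 / (N : ℝ) * l := by positivity
        nlinarith
      nlinarith
    linarith
  have hB : η / 2 * W ≤ lam' * W - Dp w w := by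
    have h1 : Kw + η / 2 ≤ lam' := by
      rw [hKw, hlam']
      have e1 : 4 * (l + ε) / (N : ℝ) * (1 + σ) = 4 / N * l + 4 / N * (ε + (l + ε) * σ) := by
        field_simp
        ring
      rw [e1]
      nlinarith
    have h2 : (Kw + η / 2) * W ≤ lam' * W := mul_le_mul_of_nonneg_right h1 hWpos.le
    nlinarith
  have hApos : 0 < lam' * m - D := lt_of_lt_of_le (by positivity) hA
  have hCAB : Dp u w ^ 2 ≤ (lam' * m - D) * (lam' * W - Dp w w) := by
    have h1 : (ε * m) * (Kw * W) ≤ (η / 2 * m) * (η / 2 * W) := by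
      have h2 : ε * Kw ≤ η ^ 2 / 4 := hε2.le
      have h3 : 0 ≤ m * W := by positivity
      have := mul_le_mul_of_nonneg_right h2 h3
      nlinarith
    have h4 : (η / 2 * m) * (η / 2 * W) ≤ (lam' * m - D) * (lam' * W - Dp w w) :=
      mul_le_mul hA hB (by positivity) hApos.le
    exact hDuw.trans (h1.trans h4)
  have hray : lam' ∈ RaySet N 2 G := by
    apply ray_two hu htw horth hmpos hWpos
    intro α β
    have := form_neg hApos hCAB α β
    rw [← hm, ← hWdef, ← hD]
    nlinarith
  exact lam_le N 2 (by norm_num) G lam' hray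

theorem ppw {N : ℕ} (hN : 2 ≤ N) {G : Set (E N)} (hGo : IsOpen G) (hGne : G.Nonempty) :
    lam N 2 G ≤ (1 + 4 / (N : ℝ)) * lam N 1 G := by
  have hN1 : 1 ≤ N := by omega
  have hNR : (0 : ℝ) < N := by
    have : 0 < N := by omega
    exact_mod_cast this
  have hpos : 0 < 1 + 4 / (N : ℝ) := by positivity
  rw [← div_le_iff₀' hpos]
  apply le_csInf (raySet_nonempty N 1 hN1 G hGo hGne)
  intro c hc
  obtain ⟨M, hM, hcM⟩ := ray_bounded hc
  have hne := ne_of_ray hcM
  have h1 := ppw_bounded hN (hGo.inter isOpen_ball) hne hM Set.inter_subset_right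
  have h2 := lam_le N 1 le_rfl _ c hcM
  have h3 : lam N 2 G ≤ lam N 2 (G ∩ ball 0 M) := by
    apply le_csInf (raySet_nonempty N 2 hN1 _ (hGo.inter isOpen_ball) hne)
    intro e he
    exact lam_le N 2 (by norm_num) G e (ray_mono Set.inter_subset_left le_rfl he)
  rw [div_le_iff₀' hpos]
  exact h3.trans (h1.trans (mul_le_mul_of_nonneg_left h2 hpos.le))

end Pool.Agent.Y247.CN
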