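import Pool.Agent.Y247.CN.Final
import Pool.Agent.Y247.CN.PPW

/-!
# Explicit bounds for the connectedness threshold
-/

set_option autoImplicit false

open MeasureTheory Filter Topology Metric

namespace Pool.Agent.Y247.CN

open Pool.Agent.Helper949.TB Pool.Agent.Y247.KB

theorem disc_ineq {N : ℕ} (hN : 2 ≤ N) {c t : ℝ} (hc : 0 < c) (ht0 : 0 < t) (ht1 : t < 1)
    {Ω : Set (E N)} (hmin : IsMin N c t Ω) (hcon : ¬ IsConnected Ω) :
    ∃ a b : ℝ, 0 < a ∧ 0 < b ∧ a + b = c ∧
      t * (c / a) ^ (2 / (N : ℝ)) + (1 - t) * (c / b) ^ (2 / (N : ℝ)) ≤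
        t + (1 - t) * (1 + 4 / (N : ℝ)) := by
  obtain ⟨A, B, hA, hB, hd, hAne, hBne, hAB, hle⟩ :=
    split_le hmin.1 (ne_of_vol hc hmin.2.1) hcon
  rw [← hAB] at hmin
  obtain ⟨G, hGo, hGv, hG⟩ := exists_G hN hc ht0 ht1 hA hB hd hAne hBne hle hmin
  have hlow := min_lower hN hc ht0.le ht1.le hA hB hd hAne hBne hle hmin
  have hup := hmin.2.2 G hGo hGv
  obtain ⟨a, b, ha, hb, hab, hva, hvb⟩ := vols hc hA hB hd hAne hBne hmin.2.1
  have hx := opt_scale hN ha (show a < c by linarith) hA hva hG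
  have hy := opt_scale hN hb (show b < c by linarith) hB hvb hG
  have hl1pos : 0 < lam N 1 G := lam_pos hN hc hGo hGv
  have hppw := ppw hN hGo (ne_of_vol hc hGv)
  refine ⟨a, b, ha, hb, hab, ?_⟩
  set x : ℝ := (c / a) ^ (2 / (N : ℝ)) with hxdef
  set y : ℝ := (c / b) ^ (2 / (N : ℝ)) with hydef
  set l1 := lam N 1 G with hl1
  have h1t : 0 < 1 - t := by linarith
  have hcmp : l1 * (t * x + (1 - t) * y) ≤ l1 * (t + (1 - t) * (1 + 4 / (N : ℝ))) := by
    have e2 := mul_le_mul_of_nonneg_left hx ht0.le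
    have e3 := mul_le_mul_of_nonneg_left hy h1t.le
    have e4 := mul_le_mul_of_nonneg_left hppw h1t.le
    unfold FF at hlow hup
    calc l1 * (t * x + (1 - t) * y) = t * (l1 * x) + (1 - t) * (l1 * y) := by ring
      _ ≤ t * lam N 1 A + (1 - t) * lam N 1 B := by linarith
      _ ≤ t * l1 + (1 - t) * lam N 2 G := by linarith
      _ ≤ t * l1 + (1 - t) * ((1 + 4 / (N : ℝ)) * l1) := by linarith
      _ = l1 * (t + (1 - t) * (1 + 4 / (N : ℝ))) := by ring
  exact le_of_mul_le_mul_left hcmp hl1pos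

theorem conn_one {N : ℕ} (hN : 2 ≤ N) {c : ℝ} (hc : 0 < c) {Ω : Set (E N)}
    (hmin : IsMin N c 1 Ω) : IsConnected Ω := by
  by_contra hcon
  obtain ⟨A, B, hA, hB, hd, hAne, hBne, hAB, hle⟩ :=
    split_le hmin.1 (ne_of_vol hc hmin.2.1) hcon
  rw [← hAB] at hmin
  exact not_min_one hN hc hA hB hd hAne hBne hle hmin

/-- every minimiser is connected for `t > e / (1 + e)` -/
theorem conn_explicit {N : ℕ} (hN : 2 ≤ N) {c : ℝ} (hc : 0 < c) {t : ℝ}
    (ht : Real.exp 1 / (1 + Real.exp 1) < t) (ht1 : t ≤ 1) {Ω : Set (E N)}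
    (hmin : IsMin N c t Ω) : IsConnected Ω := by
  rcases ht1.lt_or_eq with hlt | heq
  swap
  · subst heq
    exact conn_one hN hc hmin
  by_contra hcon
  have he : 0 < Real.exp 1 := Real.exp_pos 1
  have ht0 : 0 < t := lt_trans (by positivity) ht
  have hNR : (0 : ℝ) < N := by
    have : 0 < N := by omega
    exact_mod_cast this
  obtain ⟨a, b, ha, hb, hab, hineq⟩ := disc_ineq hN hc ht0 hlt hmin hcon
  set p : ℝ := 2 / (N : ℝ) with hp
  have hp0 : 0 < p := by positivity
  have h4 : 4 / (N : ℝ) = 2 * p := by rw [hp]; ring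
  rw [h4] at hineq
  have hexp : ∀ z : ℝ, 0 < z → 1 + p * Real.log z ≤ z ^ p := by
    intro z hz
    rw [Real.rpow_def_of_pos hz]
    have := Real.add_one_le_exp (Real.log z * p)
    linarith
  have hx := hexp (c / a) (by positivity)
  have hy := hexp (c / b) (by positivity)
  have hlogx : b / c ≤ Real.log (c / a) := by
    have h1 : Real.log (c / a) = - Real.log (a / c) := by
      rw [← Real.log_inv, inv_div]
    have h2 := Real.log_le_sub_one_of_pos (show 0 < a / c by positivity)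
    have h3 : a / c + b / c = 1 := by
      rw [← add_div, hab, div_self hc.ne']
    rw [h1]
    linarith
  have hlogy : 2 - Real.log (c / b) ≤ Real.exp 1 * (b / c) := by
    have h1 : Real.log (c / b) = - Real.log (b / c) := by
      rw [← Real.log_inv, inv_div]
    have h2 := Real.log_le_sub_one_of_pos (show 0 < Real.exp 1 * (b / c) by positivity)
    rw [Real.log_mul he.ne' (by positivity), Real.log_exp] at h2
    rw [h1]
    linarith
  have h1t : 0 < 1 - t := by linarith
  have k1 : t * (1 + p * (b / c)) ≤ t * (c / a) ^ p := by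
    apply mul_le_mul_of_nonneg_left _ ht0.le
    have := mul_le_mul_of_nonneg_left hlogx hp0.le
    linarith
  have k2 : (1 - t) * (1 + p * Real.log (c / b)) ≤ (1 - t) * (c / b) ^ p :=
    mul_le_mul_of_nonneg_left hy h1t.le
  have k3 : p * (t * (b / c)) ≤ p * ((1 - t) * (2 - Real.log (c / b))) := by nlinarith
  have k4 : t * (b / c) ≤ (1 - t) * (2 - Real.log (c / b)) := le_of_mul_le_mul_left k3 hp0
  have k5 : (1 - t) * (2 - Real.log (c / b)) ≤ (1 - t) * (Real.exp 1 * (b / c)) :=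
    mul_le_mul_of_nonneg_left hlogy h1t.le
  have hbc : 0 < b / c := by positivity
  have k6 : t * (b / c) ≤ ((1 - t) * Real.exp 1) * (b / c) := by linarith
  have k7 : t ≤ (1 - t) * Real.exp 1 := le_of_mul_le_mul_right k6 hbc
  rw [div_lt_iff₀ (by positivity)] at ht
  linarith

/-- in the plane every minimiser is connected for `t > 1 / 2` -/
theorem conn_plane {c : ℝ} (hc : 0 < c) {t : ℝ} (ht : 1 / 2 < t) (ht1 : t ≤ 1)
    {Ω : Set (E 2)} (hmin : IsMin 2 c t Ω) : IsConnected Ω := by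
  rcases ht1.lt_or_eq with hlt | heq
  swap
  · subst heq
    exact conn_one le_rfl hc hmin
  by_contra hcon
  obtain ⟨a, b, ha, hb, hab, hineq⟩ := disc_ineq le_rfl hc (by linarith) hlt hmin hcon
  have e1 : (2 : ℝ) / ((2 : ℕ) : ℝ) = 1 := by norm_num
  have e2 : (4 : ℝ) / ((2 : ℕ) : ℝ) = 2 := by norm_num
  rw [e1, e2, Real.rpow_one, Real.rpow_one] at hineq
  have h1 : t * (c / a) + (1 - t) * (c / b) = (t * c * b + (1 - t) * c * a) / (a * b) := by
    field_simp
  rw [h1, div_le_iff₀ (by positivity)] at hineq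
  have h2 : 0 < (1 - t) * (a - b) ^ 2 + b ^ 2 * (2 * t - 1) := by
    have : 0 < b ^ 2 * (2 * t - 1) := mul_pos (by positivity) (by linarith)
    have h3 : 0 ≤ (1 - t) * (a - b) ^ 2 := mul_nonneg (by linarith) (sq_nonneg _)
    linarith
  subst hab
  nlinarith

end Pool.Agent.Y247.CN
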