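import Pool.Agent.Y247.CN.Form

/-!
# Multiplication by a coordinate function
-/

set_option autoImplicit false

open MeasureTheory Filter Topology Metric

namespace Pool.Agent.Y247.CN

open Pool.Agent.Helper949.TB Pool.Agent.Y247.KB

/-- multiplication by `x_i - a` -/
noncomputable def mu {N : ℕ} (i : Fin N) (a : ℝ) (u : E N → ℝ) : E N → ℝ :=
  fun x => (x i - a) * u x

theorem hasFDeriv_coord {N : ℕ} (i : Fin N) (a : ℝ) (x : E N) :
    HasFDerivAt (fun x : E N => x i - a) (EuclideanSpace.proj i : E N →L[ℝ] ℝ) x := by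
  have h := (EuclideanSpace.proj i : E N →L[ℝ] ℝ).hasFDerivAt (x := x)
  exact h.sub_const a

theorem coord_smooth {N : ℕ} (i : Fin N) (a : ℝ) :
    ContDiff ℝ (⊤ : ℕ∞) (fun x : E N => x i - a) :=
  (EuclideanSpace.proj i : E N →L[ℝ] ℝ).contDiff.sub contDiff_const

theorem mu_test {N : ℕ} {G : Set (E N)} {u : E N → ℝ} (i : Fin N) (a : ℝ) (hu : IsTest G u) :
    IsTest G (mu i a u) := isTest_mul (coord_smooth i a) hu

theorem bv_apply {N : ℕ} (i j : Fin N) : (bv j : E N) i = if i = j then 1 else 0 := by
  rw [bv]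
  simp

theorem pd_mu {N : ℕ} {G : Set (E N)} {u : E N → ℝ} (i : Fin N) (a : ℝ) (hu : IsTest G u)
    (j : Fin N) (x : E N) :
    pd j (mu i a u) x = (if i = j then u x else 0) + (x i - a) * pd j u x := by
  have h1 : DifferentiableAt ℝ u x := hu.1.differentiable (by simp) x
  have h2 := (hasFDeriv_coord i a x).mul h1.hasFDerivAt
  unfold pd
  have h3 : HasFDerivAt (mu i a u)
      ((x i - a) • fderiv ℝ u x + u x • (EuclideanSpace.proj i : E N →L[ℝ] ℝ)) x := h2
  have hp : (EuclideanSpace.proj i : E N →L[ℝ] ℝ) (bv j) = if i = j then 1 else 0 := bv_apply i j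
  rw [h3.fderiv]
  simp only [add_apply, smul_apply, smul_eq_mul, hp]
  split_ifs <;> ring

theorem D_mu {N : ℕ} {G : Set (E N)} {u : E N → ℝ} (i : Fin N) (a : ℝ) (hu : IsTest G u) :
    Dp (mu i a u) (mu i a u) = (∫ x, u x * u x) + Dp u (mu i a (mu i a u)) := by
  unfold Dp
  rw [← integral_add (int_mul hu hu) (int_sum hu (mu_test i a (mu_test i a hu)))]
  refine integral_congr_ae (Filter.Eventually.of_forall fun x => ?_)
  show ∑ j, pd j (mu i a u) x * pd j (mu i a u) x = u x * u x +
    ∑ j, pd j u x * pd j (mu i a (mu i a u)) x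
  have e1 : ∑ j, pd j (mu i a u) x * pd j (mu i a u) x =
      u x * u x + 2 * (x i - a) * u x * pd i u x + (x i - a) ^ 2 * ∑ j, pd j u x * pd j u x := by
    have : ∀ j, pd j (mu i a u) x * pd j (mu i a u) x =
        (if i = j then u x * u x + 2 * (x i - a) * u x * pd i u x else 0) +
          (x i - a) ^ 2 * (pd j u x * pd j u x) := by
      intro j
      rw [pd_mu i a hu]
      split_ifs with h
      · subst h; ring
      · ring
    simp only [this]
    rw [Finset.sum_add_distrib, ← Finset.mul_sum, Finset.sum_ite_eq]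
    simp
  have e2 : ∑ j, pd j u x * pd j (mu i a (mu i a u)) x =
      2 * (x i - a) * u x * pd i u x + (x i - a) ^ 2 * ∑ j, pd j u x * pd j u x := by
    have : ∀ j, pd j u x * pd j (mu i a (mu i a u)) x =
        (if i = j then 2 * (x i - a) * u x * pd i u x else 0) +
          (x i - a) ^ 2 * (pd j u x * pd j u x) := by
      intro j
      rw [pd_mu i a (mu_test i a hu), pd_mu i a hu]
      simp only [mu]
      split_ifs with h
      · subst h; ring
      · ring
    simp only [this]
    rw [Finset.sum_add_distrib, ← Finset.mul_sum, Finset.sum_ite_eq]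
    simp
  rw [e1, e2]
  ring

theorem D_mu2_le {N : ℕ} {G : Set (E N)} {u : E N → ℝ} (i : Fin N) {a M : ℝ} (hu : IsTest G u)
    (hG : G ⊆ ball 0 M) (hM : 0 < M) (ha : |a| ≤ M) :
    Dp (mu i a (mu i a u)) (mu i a (mu i a u)) ≤
      32 * M ^ 2 * (∫ x, u x * u x) + 32 * M ^ 4 * Dp u u := by
  unfold Dp
  rw [← integral_const_mul, ← integral_const_mul, ← integral_add ((int_mul hu hu).const_mul _)
    ((int_sum hu hu).const_mul _)]
  have ht2 := mu_test i a (mu_test i a hu)
  apply integral_mono (int_sum ht2 ht2)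
    (((int_mul hu hu).const_mul _).add ((int_sum hu hu).const_mul _))
  intro x
  show ∑ j, pd j (mu i a (mu i a u)) x * pd j (mu i a (mu i a u)) x ≤
    32 * M ^ 2 * (u x * u x) + 32 * M ^ 4 * ∑ j, pd j u x * pd j u x
  have hform : ∀ j, pd j (mu i a (mu i a u)) x =
      (if i = j then 2 * (x i - a) * u x else 0) + (x i - a) ^ 2 * pd j u x := by
    intro j
    rw [pd_mu i a (mu_test i a hu), pd_mu i a hu]
    simp only [mu]
    split_ifs with h
    · ring
    · ring
  have hS : 0 ≤ ∑ j, pd j u x * pd j u x := Finset.sum_nonneg fun j _ => mul_self_nonneg _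
  by_cases hx : x ∈ tsupport u
  · have hxM : ‖x‖ < M := mem_ball_zero_iff.1 (hG (hu.2.2 hx))
    have hxi : |x i| ≤ M := by
      have := PiLp.norm_apply_le x i
      rw [Real.norm_eq_abs] at this
      linarith
    have hφ : |x i - a| ≤ 2 * M := by
      have := abs_sub (x i) a
      linarith [abs_sub_le (x i) 0 a, abs_sub (x i) a]
    have hφ2 : (x i - a) ^ 2 ≤ 4 * M ^ 2 := by
      rw [← sq_abs]
      nlinarith [abs_nonneg (x i - a)]
    have h1 : ∑ j, pd j (mu i a (mu i a u)) x * pd j (mu i a (mu i a u)) x ≤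
        ∑ j, ((if i = j then 8 * (x i - a) ^ 2 * (u x * u x) else 0) +
          2 * (x i - a) ^ 4 * (pd j u x * pd j u x)) := by
      apply Finset.sum_le_sum
      intro j _
      rw [hform j]
      split_ifs with h
      · nlinarith [sq_nonneg (2 * (x i - a) * u x - (x i - a) ^ 2 * pd j u x)]
      · nlinarith [sq_nonneg ((x i - a) ^ 2 * pd j u x)]
    refine h1.trans ?_
    rw [Finset.sum_add_distrib, ← Finset.mul_sum, Finset.sum_ite_eq]
    simp only [Finset.mem_univ, if_true]
    have h4 : (x i - a) ^ 4 ≤ 16 * M ^ 4 := by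
      have : (x i - a) ^ 4 = ((x i - a) ^ 2) ^ 2 := by ring
      rw [this]
      nlinarith [sq_nonneg (x i - a)]
    have h5 : 8 * (x i - a) ^ 2 * (u x * u x) ≤ 32 * M ^ 2 * (u x * u x) := by
      have := mul_le_mul_of_nonneg_right hφ2 (mul_self_nonneg (u x))
      linarith
    have h6 : 2 * (x i - a) ^ 4 * (∑ j, pd j u x * pd j u x) ≤
        32 * M ^ 4 * ∑ j, pd j u x * pd j u x := by
      have := mul_le_mul_of_nonneg_right h4 hS
      linarith
    linarith
  · have hu0 : u x = 0 := image_eq_zero_of_notMem_tsupport hx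
    have hp0 : ∀ j, pd j u x = 0 := by
      intro j
      unfold pd
      rw [notMem_tsupport_iff_eventuallyEq] at hx
      rw [hx.fderiv_eq]
      simp
    have : ∀ j, pd j (mu i a (mu i a u)) x = 0 := by
      intro j
      rw [hform j, hu0, hp0 j]
      simp
    simp only [this, hp0, hu0]
    simp

theorem ibp {N : ℕ} {G : Set (E N)} {u : E N → ℝ} (i : Fin N) (a : ℝ) (hu : IsTest G u) :
    2 * ∫ x, mu i a u x * pd i u x = - ∫ x, u x * u x := by
  have hsq : ∀ x, HasFDerivAt (fun x => u x * u x) (u x • fderiv ℝ u x + u x • fderiv ℝ u x) x := by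
    intro x
    have h1 : DifferentiableAt ℝ u x := hu.1.differentiable (by simp) x
    exact h1.hasFDerivAt.mul h1.hasFDerivAt
  have hd : ∀ x, fderiv ℝ (fun x => u x * u x) x (bv i) = 2 * (u x * pd i u x) := by
    intro x
    rw [(hsq x).fderiv]
    simp only [add_apply, smul_apply, smul_eq_mul, pd]
    ring
  have hc : ∀ x, fderiv ℝ (fun x : E N => x i - a) x (bv i) = 1 := by
    intro x
    rw [(hasFDeriv_coord i a x).fderiv]
    simp [bv_apply]
  have hcu : Continuous u := hu.1.continuous
  have hpc := pd_cont hu i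
  have hphic : Continuous (fun x : E N => x i - a) := (coord_smooth i a).continuous
  have key := integral_mul_fderiv_eq_neg_fderiv_mul_of_integrable
    (μ := (volume : Measure (E N))) (𝕜 := ℝ)
    (f := fun x : E N => x i - a) (g := fun x => u x * u x) (v := bv i)
    (by
      simp only [hc, one_mul]
      exact int_mul hu hu)
    (by
      simp only [hd]
      refine Continuous.integrable_of_hasCompactSupport
        (hphic.mul (continuous_const.mul (hcu.mul hpc))) ?_
      exact HasCompactSupport.mul_left (HasCompactSupport.mul_left (hu.2.1.mul_right)))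
    (by
      refine Continuous.integrable_of_hasCompactSupport (hphic.mul (hcu.mul hcu)) ?_
      exact HasCompactSupport.mul_left (hu.2.1.mul_right))
    (fun x _ => (hasFDeriv_coord i a x).differentiableAt)
    (fun x _ => (hsq x).differentiableAt)
  simp only [hc, one_mul, hd] at key
  rw [← key, ← integral_const_mul]
  refine integral_congr_ae (Filter.Eventually.of_forall fun x => ?_)
  show 2 * (mu i a u x * pd i u x) = (x i - a) * (2 * (u x * pd i u x))
  simp only [mu]
  ring

theorem hardy {N : ℕ} {G : Set (E N)} {u : E N → ℝ} (i : Fin N) (a : ℝ) (hu : IsTest G u) :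
    (∫ x, u x * u x) ^ 2 ≤ 4 * ((∫ x, mu i a u x * mu i a u x) * ∫ x, pd i u x * pd i u x) := by
  have hw := mu_test i a hu
  have i1 := int_mul hw hw
  have i3 := int_pd hu hu i
  have i2 : Integrable (fun x => mu i a u x * pd i u x) :=
    (hw.1.continuous.mul (pd_cont hu i)).integrable_of_hasCompactSupport hw.2.1.mul_right
  have hcs : (∫ x, mu i a u x * pd i u x) ^ 2 ≤
      (∫ x, mu i a u x * mu i a u x) * ∫ x, pd i u x * pd i u x := by
    apply cs_aux (integral_nonneg fun x => mul_self_nonneg _)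
      (integral_nonneg fun x => mul_self_nonneg _)
    intro α β
    rw [← int_three i1 i2 i3]
    apply integral_nonneg
    intro x
    show 0 ≤ α ^ 2 * (mu i a u x * mu i a u x) + 2 * α * β * (mu i a u x * pd i u x) +
      β ^ 2 * (pd i u x * pd i u x)
    nlinarith [sq_nonneg (α * mu i a u x + β * pd i u x)]
  have h1 := ibp i a hu
  have h2 : (∫ x, u x * u x) ^ 2 = 4 * (∫ x, mu i a u x * pd i u x) ^ 2 := by
    have : ∫ x, u x * u x = - (2 * ∫ x, mu i a u x * pd i u x) := by linarith
    rw [this]; ring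
  rw [h2]
  linarith

theorem sum_pd {N : ℕ} {G : Set (E N)} {u : E N → ℝ} (hu : IsTest G u) :
    ∑ i, ∫ x, pd i u x * pd i u x = Dp u u := by
  unfold Dp
  rw [integral_finsetSum _ (fun i _ => int_pd hu hu i)]

end Pool.Agent.Y247.CN
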