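import Pool.Agent.Y247.CN.Main

/-!
# Minimisers of `t λ₁ + (1 - t) λ₂` are connected for `t` close to one: conclusion
-/

set_option autoImplicit false

open MeasureTheory Filter Topology Metric

namespace Pool.Agent.Y247.CN

open Pool.Agent.Helper949.TB Pool.Agent.Y247.KB

theorem split {X : Type} [TopologicalSpace X] {Ω : Set X} (hΩ : IsOpen Ω) (hne : Ω.Nonempty)
    (h : ¬ IsConnected Ω) : ∃ A B : Set X, IsOpen A ∧ IsOpen B ∧ Disjoint A B ∧ A.Nonempty ∧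
      B.Nonempty ∧ A ∪ B = Ω := by
  have hp : ¬ IsPreconnected Ω := fun hp => h ⟨hne, hp⟩
  rw [isPreconnected_iff_subset_of_disjoint] at hp
  push Not at hp
  obtain ⟨u, v, hu, hv, hsub, hdis, hnu, hnv⟩ := hp
  refine ⟨Ω ∩ u, Ω ∩ v, hΩ.inter hu, hΩ.inter hv, ?_, ?_, ?_, ?_⟩
  · rw [Set.disjoint_left]
    rintro x ⟨hx, hxu⟩ ⟨-, hxv⟩
    have : x ∈ Ω ∩ (u ∩ v) := ⟨hx, hxu, hxv⟩
    rw [hdis] at this
    exact this
  · obtain ⟨x, hx, hxv⟩ := Set.not_subset.1 hnv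
    exact ⟨x, hx, (hsub hx).resolve_right hxv⟩
  · obtain ⟨x, hx, hxu⟩ := Set.not_subset.1 hnu
    exact ⟨x, hx, (hsub hx).resolve_left hxu⟩
  · rw [← Set.inter_union_distrib_left]
    exact Set.inter_eq_left.2 hsub

/-- splitting with the ordering of the first eigenvalues -/
theorem split_le {N : ℕ} {Ω : Set (E N)} (hΩ : IsOpen Ω) (hne : Ω.Nonempty)
    (h : ¬ IsConnected Ω) : ∃ A B : Set (E N), IsOpen A ∧ IsOpen B ∧ Disjoint A B ∧ A.Nonempty ∧
      B.Nonempty ∧ A ∪ B = Ω ∧ lam N 1 A ≤ lam N 1 B := by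
  obtain ⟨A, B, h1, h2, h3, h4, h5, h6⟩ := split hΩ hne h
  rcases le_total (lam N 1 A) (lam N 1 B) with hle | hle
  · exact ⟨A, B, h1, h2, h3, h4, h5, h6, hle⟩
  · exact ⟨B, A, h2, h1, h3.symm, h5, h4, by rw [Set.union_comm, h6], hle⟩

theorem opt_scale {N : ℕ} (hN : 2 ≤ N) {a c : ℝ} (ha : 0 < a) (hac : a < c) {A G : Set (E N)}
    (hA : IsOpen A) (hva : volume A = ENNReal.ofReal a)
    (hG : ∀ Ω' : Set (E N), IsOpen Ω' → volume Ω' = ENNReal.ofReal c → lam N 1 G ≤ lam N 1 Ω') :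
    lam N 1 G * (c / a) ^ (2 / (N : ℝ)) ≤ lam N 1 A := by
  have hN1 : 1 ≤ N := by omega
  have hNR : (0 : ℝ) < N := by
    have : 0 < N := by omega
    exact_mod_cast this
  obtain ⟨s, hs1, hsN, hso, hsv, hsl⟩ := blow_up hN1 ha hac hA hva
  have hs : 0 < s := by linarith
  have h1 := hG _ hso hsv
  have h2 := hsl 1 le_rfl
  have h3 : (c / a) ^ (2 / (N : ℝ)) = s ^ 2 := by
    rw [← hsN, ← Real.rpow_natCast s N, ← Real.rpow_mul hs.le]
    have : (N : ℝ) * (2 / (N : ℝ)) = 2 := by field_simp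
    rw [this]
    norm_num
  rw [h3, mul_comm]
  exact (mul_le_mul_of_nonneg_left h1 (by positivity)).trans h2

theorem conn_of_G {N : ℕ} (hN : 2 ≤ N) {c : ℝ} (hc : 0 < c) {G : Set (E N)} (hGo : IsOpen G)
    (hGv : volume G = ENNReal.ofReal c)
    (hG : ∀ Ω' : Set (E N), IsOpen Ω' → volume Ω' = ENNReal.ofReal c → lam N 1 G ≤ lam N 1 Ω') :
    ∃ t₀ : ℝ, 0 ≤ t₀ ∧ t₀ < 1 ∧ ∀ t, t₀ < t → t < 1 → ∀ Ω : Set (E N), IsMin N c t Ω →
      IsConnected Ω := by
  have hN1 : 1 ≤ N := by omega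
  have hNR : (0 : ℝ) < N := by
    have : 0 < N := by omega
    exact_mod_cast this
  set l1 := lam N 1 G with hl1
  set l2 := lam N 2 G with hl2
  have hl1pos : 0 < l1 := lam_pos hN hc hGo hGv
  have hl12 : l1 ≤ l2 := lam_one_le_two hN1 hGo (ne_of_vol hc hGv)
  set Λ : ℝ := l2 / l1 + 1 with hΛ
  have hq1 : 1 ≤ l2 / l1 := by rwa [one_le_div hl1pos]
  have hΛ1 : 1 < Λ := by rw [hΛ]; linarith
  have hΛ0 : 0 < Λ := by linarith
  set v0 : ℝ := (Λ ^ ((N : ℝ) / 2))⁻¹ with hv0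
  have hP1 : 1 < Λ ^ ((N : ℝ) / 2) := Real.one_lt_rpow hΛ1 (by positivity)
  have hv0pos : 0 < v0 := by rw [hv0]; positivity
  have hv01 : v0 < 1 := by rw [hv0]; exact inv_lt_one_of_one_lt₀ hP1
  set K : ℝ := 1 / (1 - v0) with hK
  have hK1 : 1 < K := by
    rw [hK, one_lt_div (by linarith)]
    linarith
  set κ : ℝ := K ^ (2 / (N : ℝ)) - 1 with hκ
  have hκ0 : 0 < κ := by
    have := Real.one_lt_rpow hK1 (show 0 < 2 / (N : ℝ) by positivity)
    rw [hκ]; linarith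
  refine ⟨Λ / (Λ + κ), by positivity, by rw [div_lt_one (by positivity)]; linarith, ?_⟩
  intro t ht ht1 Ω hmin
  by_contra hcon
  have ht0 : 0 < t := lt_of_le_of_lt (by positivity) ht
  obtain ⟨A, B, hA, hB, hd, hAne, hBne, hAB, hle⟩ :=
    split_le hmin.1 (ne_of_vol hc hmin.2.1) hcon
  rw [← hAB] at hmin
  have hlow := min_lower hN hc ht0.le ht1.le hA hB hd hAne hBne hle hmin
  have hup := hmin.2.2 G hGo hGv
  obtain ⟨a, b, ha, hb, hab, hva, hvb⟩ := vols hc hA hB hd hAne hBne hmin.2.1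
  have hx := opt_scale hN ha (show a < c by linarith) hA hva hG
  have hy := opt_scale hN hb (show b < c by linarith) hB hvb hG
  set x : ℝ := (c / a) ^ (2 / (N : ℝ)) with hxdef
  set y : ℝ := (c / b) ^ (2 / (N : ℝ)) with hydef
  have hca : 1 < c / a := by rw [one_lt_div ha]; linarith
  have hcb : 1 < c / b := by rw [one_lt_div hb]; linarith
  have hx1 : 1 < x := Real.one_lt_rpow hca (by positivity)
  have hy1 : 1 < y := Real.one_lt_rpow hcb (by positivity)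
  have h1t : 0 < 1 - t := by linarith
  -- the comparison with `G`
  have hcmp : l1 * (t * x + (1 - t) * y) ≤ l1 * (t + (1 - t) * (l2 / l1)) := by
    have e1 : l1 * (t + (1 - t) * (l2 / l1)) = t * l1 + (1 - t) * l2 := by
      field_simp
    have e2 := mul_le_mul_of_nonneg_left hx ht0.le
    have e3 := mul_le_mul_of_nonneg_left hy h1t.le
    rw [e1]
    unfold FF at hlow hup
    nlinarith
  have hcmp' : t * x + (1 - t) * y ≤ t + (1 - t) * (l2 / l1) := le_of_mul_le_mul_left hcmp hl1pos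
  have hyΛ : y ≤ Λ := by
    have h2 : (1 - t) * y ≤ (1 - t) * (l2 / l1) := by nlinarith
    have h3 := le_of_mul_le_mul_left h2 h1t
    rw [hΛ]; linarith
  have hcb2 : c / b ≤ Λ ^ ((N : ℝ) / 2) := by
    have h2 := Real.rpow_le_rpow (by positivity) hyΛ (show 0 ≤ (N : ℝ) / 2 by positivity)
    rw [hydef, ← Real.rpow_mul (by positivity)] at h2
    have : 2 / (N : ℝ) * ((N : ℝ) / 2) = 1 := by field_simp
    rwa [this, Real.rpow_one] at h2
  have hbc : v0 ≤ b / c := by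
    rw [hv0, inv_le_comm₀ (by positivity) (by positivity), inv_div]
    exact hcb2
  have hac : a / c ≤ 1 - v0 := by
    have : a / c + b / c = 1 := by
      rw [← add_div, hab, div_self hc.ne']
    linarith
  have hKa : K ≤ c / a := by
    rw [hK, div_le_div_iff₀ (by linarith) ha, one_mul]
    rw [div_le_iff₀ hc] at hac
    linarith
  have hxK : 1 + κ ≤ x := by
    have h2 := Real.rpow_le_rpow (by positivity) hKa (show 0 ≤ 2 / (N : ℝ) by positivity)
    rw [hκ, hxdef]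
    linarith
  have hfin : t * (Λ + κ) ≤ Λ := by
    have h2 : t * (1 + κ) ≤ t * x := mul_le_mul_of_nonneg_left hxK ht0.le
    have h3 : (1 - t) * (l2 / l1) ≤ (1 - t) * Λ :=
      mul_le_mul_of_nonneg_left (by rw [hΛ]; linarith) h1t.le
    have h4 : 0 ≤ (1 - t) * y := by positivity
    nlinarith
  rw [div_lt_iff₀ (by positivity)] at ht
  linarith

/-- for `t` close to one every minimiser is connected -/
theorem conn_near_one (N : ℕ) (hN : 2 ≤ N) (c : ℝ) (hc : 0 < c) :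
    ∃ t₀ : ℝ, 0 ≤ t₀ ∧ t₀ < 1 ∧ ∀ t, t₀ < t → t ≤ 1 → ∀ Ω : Set (E N), IsMin N c t Ω →
      IsConnected Ω := by
  have hone : ∀ Ω : Set (E N), IsMin N c 1 Ω → IsConnected Ω := by
    intro Ω hmin
    by_contra hcon
    obtain ⟨A, B, hA, hB, hd, hAne, hBne, hAB, hle⟩ :=
      split_le hmin.1 (ne_of_vol hc hmin.2.1) hcon
    rw [← hAB] at hmin
    exact not_min_one hN hc hA hB hd hAne hBne hle hmin
  have hmain : ∃ t₀ : ℝ, 0 ≤ t₀ ∧ t₀ < 1 ∧ ∀ t, t₀ < t → t < 1 → ∀ Ω : Set (E N),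
      IsMin N c t Ω → IsConnected Ω := by
    by_cases hG : ∃ G : Set (E N), IsOpen G ∧ volume G = ENNReal.ofReal c ∧
      ∀ Ω' : Set (E N), IsOpen Ω' → volume Ω' = ENNReal.ofReal c → lam N 1 G ≤ lam N 1 Ω'
    · obtain ⟨G, h1, h2, h3⟩ := hG
      exact conn_of_G hN hc h1 h2 h3
    · refine ⟨0, le_rfl, one_pos, ?_⟩
      intro t ht0 ht1 Ω hmin
      by_contra hcon
      obtain ⟨A, B, hA, hB, hd, hAne, hBne, hAB, hle⟩ :=
        split_le hmin.1 (ne_of_vol hc hmin.2.1) hcon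
      rw [← hAB] at hmin
      exact hG (exists_G hN hc ht0 ht1 hA hB hd hAne hBne hle hmin)
  obtain ⟨t₀, h0, h1, h⟩ := hmain
  refine ⟨t₀, h0, h1, fun t ht ht1 Ω hmin => ?_⟩
  rcases ht1.lt_or_eq with hlt | heq
  · exact h t ht hlt Ω hmin
  · subst heq
    exact hone Ω hmin

end Pool.Agent.Y247.CN
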