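import Mathlib
import Pool.Agent.Y247.KB.Main

/-!
# The Dirichlet form in coordinates
-/

set_option autoImplicit false

open MeasureTheory Filter Topology Metric

namespace Pool.Agent.Y247.CN

open Pool.Agent.Helper949.TB Pool.Agent.Y247.KB

/-- coordinate vectors -/
noncomputable def bv {N : ℕ} (j : Fin N) : E N := EuclideanSpace.single j (1 : ℝ)

theorem norm_sq_clm {N : ℕ} (L : E N →L[ℝ] ℝ) : ‖L‖ ^ 2 = ∑ j, (L (bv j)) ^ 2 := by
  set g : E N := (InnerProductSpace.toDual ℝ (E N)).symm L with hg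
  have h1 : ‖L‖ = ‖g‖ := by
    rw [hg, LinearIsometryEquiv.norm_map]
  have h2 : ∀ j, L (bv j) = g j := by
    intro j
    have h3 : L (bv j) = inner ℝ g (bv j) := by
      rw [hg, InnerProductSpace.toDual_symm_apply]
    rw [h3, bv, EuclideanSpace.inner_single_right]
    simp
  rw [h1, EuclideanSpace.norm_sq_eq]
  refine Finset.sum_congr rfl fun j _ => ?_
  rw [h2 j, Real.norm_eq_abs, sq_abs]

/-- partial derivative -/
noncomputable def pd {N : ℕ} (j : Fin N) (u : E N → ℝ) (x : E N) : ℝ := fderiv ℝ u x (bv j)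

/-- polar Dirichlet form -/
noncomputable def Dp {N : ℕ} (u v : E N → ℝ) : ℝ := ∫ x, ∑ j, pd j u x * pd j v x

theorem D_eq {N : ℕ} (u : E N → ℝ) : ∫ x, ‖fderiv ℝ u x‖ ^ 2 = Dp u u := by
  unfold Dp
  refine integral_congr_ae (Filter.Eventually.of_forall fun x => ?_)
  show ‖fderiv ℝ u x‖ ^ 2 = _
  rw [norm_sq_clm]
  refine Finset.sum_congr rfl fun j _ => ?_
  rw [pd, sq]

theorem pd_cont {N : ℕ} {G : Set (E N)} {u : E N → ℝ} (hu : IsTest G u) (j : Fin N) :
    Continuous (pd j u) :=
  (hu.1.continuous_fderiv (by simp)).clm_apply continuous_const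

theorem pd_supp {N : ℕ} {G : Set (E N)} {u : E N → ℝ} (hu : IsTest G u) (j : Fin N) :
    HasCompactSupport (pd j u) := hu.2.1.fderiv_apply (𝕜 := ℝ) (bv j)

theorem int_pd {N : ℕ} {G : Set (E N)} {u v : E N → ℝ} (hu : IsTest G u) (hv : IsTest G v)
    (j : Fin N) : Integrable (fun x => pd j u x * pd j v x) :=
  ((pd_cont hu j).mul (pd_cont hv j)).integrable_of_hasCompactSupport (pd_supp hu j).mul_right

theorem int_sum {N : ℕ} {G : Set (E N)} {u v : E N → ℝ} (hu : IsTest G u) (hv : IsTest G v) :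
    Integrable (fun x => ∑ j, pd j u x * pd j v x) :=
  integrable_finsetSum _ fun j _ => int_pd hu hv j

theorem int_mul {N : ℕ} {G : Set (E N)} {u v : E N → ℝ} (hu : IsTest G u) (hv : IsTest G v) :
    Integrable (fun x => u x * v x) :=
  (hu.1.continuous.mul hv.1.continuous).integrable_of_hasCompactSupport hu.2.1.mul_right

theorem pd_lin {N : ℕ} {G : Set (E N)} {u v : E N → ℝ} (hu : IsTest G u) (hv : IsTest G v)
    (α β : ℝ) (j : Fin N) (x : E N) :
    pd j (fun x => α * u x + β * v x) x = α * pd j u x + β * pd j v x := by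
  have h1 : DifferentiableAt ℝ u x := hu.1.differentiable (by simp) x
  have h2 : DifferentiableAt ℝ v x := hv.1.differentiable (by simp) x
  unfold pd
  have h3 : HasFDerivAt (fun x => α * u x + β * v x) (α • fderiv ℝ u x + β • fderiv ℝ v x) x :=
    (h1.hasFDerivAt.const_mul α).add (h2.hasFDerivAt.const_mul β)
  rw [h3.fderiv]
  simp

theorem int_three {N : ℕ} {f g h : E N → ℝ} (hf : Integrable f) (hg : Integrable g)
    (hh : Integrable h) (a b c : ℝ) : ∫ x, (a * f x + b * g x + c * h x) =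
      a * (∫ x, f x) + b * (∫ x, g x) + c * ∫ x, h x := by
  have e1 : Integrable (fun x => a * f x) := hf.const_mul a
  have e2 : Integrable (fun x => b * g x) := hg.const_mul b
  have e3 : Integrable (fun x => c * h x) := hh.const_mul c
  have e12 : Integrable (fun x => a * f x + b * g x) := e1.add e2
  rw [integral_add e12 e3, integral_add e1 e2, integral_const_mul, integral_const_mul,
    integral_const_mul]

theorem Dp_expand {N : ℕ} {G : Set (E N)} {u v : E N → ℝ} (hu : IsTest G u) (hv : IsTest G v)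
    (α β : ℝ) : Dp (fun x => α * u x + β * v x) (fun x => α * u x + β * v x) =
      α ^ 2 * Dp u u + 2 * α * β * Dp u v + β ^ 2 * Dp v v := by
  unfold Dp
  rw [← int_three (int_sum hu hu) (int_sum hu hv) (int_sum hv hv)]
  refine integral_congr_ae (Filter.Eventually.of_forall fun x => ?_)
  simp only [pd_lin hu hv]
  rw [Finset.mul_sum, Finset.mul_sum, Finset.mul_sum, ← Finset.sum_add_distrib,
    ← Finset.sum_add_distrib]
  refine Finset.sum_congr rfl fun j _ => ?_
  ring

theorem sq_expand {N : ℕ} {G : Set (E N)} {u v : E N → ℝ} (hu : IsTest G u) (hv : IsTest G v)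
    (α β : ℝ) : ∫ x, (α * u x + β * v x) ^ 2 =
      α ^ 2 * (∫ x, u x * u x) + 2 * α * β * (∫ x, u x * v x) + β ^ 2 * ∫ x, v x * v x := by
  rw [← int_three (int_mul hu hu) (int_mul hu hv) (int_mul hv hv)]
  refine integral_congr_ae (Filter.Eventually.of_forall fun x => ?_)
  show (α * u x + β * v x) ^ 2 = _
  ring

theorem isTest_mul {N : ℕ} {G : Set (E N)} {ψ u : E N → ℝ} (hψ : ContDiff ℝ (⊤ : ℕ∞) ψ)
    (hu : IsTest G u) : IsTest G (fun x => ψ x * u x) :=
  ⟨hψ.mul hu.1, hu.2.1.mul_left, (tsupport_mul_subset_right).trans hu.2.2⟩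

theorem isTest_lin {N : ℕ} {G : Set (E N)} {u v : E N → ℝ} (hu : IsTest G u) (hv : IsTest G v)
    (α β : ℝ) : IsTest G (fun x => α * u x + β * v x) := by
  refine ⟨(contDiff_const.mul hu.1).add (contDiff_const.mul hv.1),
    (hu.2.1.mul_left).add (hv.2.1.mul_left), ?_⟩
  refine (tsupport_add _ _).trans (Set.union_subset ?_ ?_)
  · exact (tsupport_mul_subset_right).trans hu.2.2
  · exact (tsupport_mul_subset_right).trans hv.2.2

/-- the form `Q = D - l ‖·‖²` -/
noncomputable def qf {N : ℕ} (l : ℝ) (u v : E N → ℝ) : ℝ := Dp u v - l * ∫ x, u x * v x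

theorem qf_nonneg {N : ℕ} {G : Set (E N)} {u : E N → ℝ} (hu : IsTest G u) :
    0 ≤ qf (lam N 1 G) u u := by
  have h := lam_one_ineq hu
  rw [D_eq] at h
  have h2 : ∫ x, u x ^ 2 = ∫ x, u x * u x := by simp only [sq]
  rw [h2] at h
  unfold qf
  linarith

theorem qf_expand {N : ℕ} {G : Set (E N)} {u v : E N → ℝ} (hu : IsTest G u) (hv : IsTest G v)
    (l α β : ℝ) : qf l (fun x => α * u x + β * v x) (fun x => α * u x + β * v x) =
      α ^ 2 * qf l u u + 2 * α * β * qf l u v + β ^ 2 * qf l v v := by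
  unfold qf
  rw [Dp_expand hu hv]
  have h2 : ∫ x, (α * u x + β * v x) * (α * u x + β * v x) = ∫ x, (α * u x + β * v x) ^ 2 := by
    simp only [sq]
  rw [h2, sq_expand hu hv]
  ring

theorem cs_aux {a b c : ℝ} (ha : 0 ≤ a) (hb : 0 ≤ b)
    (h : ∀ α β : ℝ, 0 ≤ α ^ 2 * a + 2 * α * β * c + β ^ 2 * b) : c ^ 2 ≤ a * b := by
  rcases hb.eq_or_lt with hb0 | hb0
  · rw [← hb0, mul_zero]
    by_contra hc
    push Not at hc
    have hc0 : c ≠ 0 := by
      rintro rfl
      norm_num at hc
    have h1 := h 1 (-(a + 1) / (2 * c))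
    rw [← hb0] at h1
    have : 2 * 1 * (-(a + 1) / (2 * c)) * c = -(a + 1) := by field_simp
    rw [this] at h1
    nlinarith
  · have h1 := h b (-c)
    nlinarith

theorem qf_cs {N : ℕ} {G : Set (E N)} {u v : E N → ℝ} (hu : IsTest G u) (hv : IsTest G v) :
    qf (lam N 1 G) u v ^ 2 ≤ qf (lam N 1 G) u u * qf (lam N 1 G) v v := by
  apply cs_aux (qf_nonneg hu) (qf_nonneg hv)
  intro α β
  rw [← qf_expand hu hv]
  exact qf_nonneg (isTest_lin hu hv α β)

/-- two test functions spanning a plane on which the Rayleigh quotient is at most `c` -/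
theorem ray_two {N : ℕ} {G : Set (E N)} {u v : E N → ℝ} (hu : IsTest G u) (hv : IsTest G v)
    {c : ℝ} (h0 : ∫ x, u x * v x = 0) (hu0 : 0 < ∫ x, u x * u x) (hv0 : 0 < ∫ x, v x * v x)
    (h : ∀ α β : ℝ, α ^ 2 * Dp u u + 2 * α * β * Dp u v + β ^ 2 * Dp v v ≤
      c * (α ^ 2 * (∫ x, u x * u x) + β ^ 2 * ∫ x, v x * v x)) : c ∈ RaySet N 2 G := by
  have hind : LinearIndependent ℝ ![u, v] := by
    rw [LinearIndependent.pair_iff]
    intro α β hαβ
    have e0 : (fun x => α * u x + β * v x) = 0 := by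
      have : α • u + β • v = fun x => α * u x + β * v x := by
        ext x; simp
      rw [← this]; exact hαβ
    have e1 := sq_expand hu hv α β
    have e2 : ∫ x, (α * u x + β * v x) ^ 2 = 0 := by
      have : ∀ x, (α * u x + β * v x) ^ 2 = 0 := by
        intro x
        have := congrFun e0 x
        simp only [Pi.zero_apply] at this
        rw [this]; norm_num
      simp [this]
    rw [e2, h0, mul_zero, add_zero] at e1
    have e3 : 0 ≤ α ^ 2 * ∫ x, u x * u x := by positivity
    have e4 : 0 ≤ β ^ 2 * ∫ x, v x * v x := by positivity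
    have e5 : α ^ 2 * ∫ x, u x * u x = 0 := by linarith
    have e6 : β ^ 2 * ∫ x, v x * v x = 0 := by linarith
    constructor
    · rcases mul_eq_zero.1 e5 with h | h
      · exact pow_eq_zero_iff (by norm_num) |>.1 h
      · exact absurd h hu0.ne'
    · rcases mul_eq_zero.1 e6 with h | h
      · exact pow_eq_zero_iff (by norm_num) |>.1 h
      · exact absurd h hv0.ne'
  refine ⟨Submodule.span ℝ (Set.range ![u, v]), ?_, ?_⟩
  · rw [finrank_span_eq_card hind, Fintype.card_fin]
  · intro w hw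
    rw [Matrix.range_cons, Matrix.range_cons, Matrix.range_empty, Set.union_empty,
      Set.singleton_union, Submodule.mem_span_pair] at hw
    obtain ⟨α, β, rfl⟩ := hw
    have e : α • u + β • v = fun x => α * u x + β * v x := by
      ext x; simp
    rw [e]
    have ht := isTest_lin hu hv α β
    refine ⟨ht.1, ht.2.1, ht.2.2, ?_⟩
    rw [D_eq, Dp_expand hu hv, sq_expand hu hv, h0, mul_zero, add_zero]
    exact h α β

end Pool.Agent.Y247.CN
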