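import Pool.Agent.Y247.CN.Two
import Pool.Agent.Y247.CN.Pos

/-!
# Minimisers of `t λ₁ + (1 - t) λ₂` are connected for `t` close to one
-/

set_option autoImplicit false

open MeasureTheory Filter Topology Metric

namespace Pool.Agent.Y247.CN

open Pool.Agent.Helper949.TB Pool.Agent.Y247.KB

noncomputable def FF (N : ℕ) (t : ℝ) (Ω : Set (E N)) : ℝ :=
  t * lam N 1 Ω + (1 - t) * lam N 2 Ω

def IsMin (N : ℕ) (c t : ℝ) (Ω : Set (E N)) : Prop :=
  IsOpen Ω ∧ volume Ω = ENNReal.ofReal c ∧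
    ∀ Ω' : Set (E N), IsOpen Ω' → volume Ω' = ENNReal.ofReal c → FF N t Ω ≤ FF N t Ω'

theorem scale_open {N : ℕ} {Ω : Set (E N)} (hΩ : IsOpen Ω) {s : ℝ} (hs : 0 < s) :
    IsOpen ((fun x : E N => s • x) '' Ω) := by
  have := hΩ.smul₀ hs.ne'
  rwa [← Set.image_smul] at this

theorem lam_scale {N k : ℕ} (hN : 1 ≤ N) (hk : 1 ≤ k) {Ω : Set (E N)} (hΩ : IsOpen Ω)
    (hne : Ω.Nonempty) {s : ℝ} (hs : 0 < s) :
    s ^ 2 * lam N k ((fun x : E N => s • x) '' Ω) ≤ lam N k Ω := by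
  apply le_csInf (raySet_nonempty N k hN Ω hΩ hne)
  intro c hc
  have h1 := lam_le N k hk _ _ (scale_ray N k Ω s hs c hc)
  rw [le_div_iff₀ (by positivity)] at h1
  linarith

theorem lam_one_le_two {N : ℕ} (hN : 1 ≤ N) {Ω : Set (E N)} (hΩ : IsOpen Ω)
    (hne : Ω.Nonempty) : lam N 1 Ω ≤ lam N 2 Ω :=
  lam_lower N 2 (by norm_num) Ω hΩ hne hN _ (fun f hf => lam_one_ineq hf)

theorem ne_of_vol {N : ℕ} {Ω : Set (E N)} {a : ℝ} (ha : 0 < a)
    (hv : volume Ω = ENNReal.ofReal a) : Ω.Nonempty := by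
  by_contra h
  rw [Set.not_nonempty_iff_eq_empty] at h
  rw [h, measure_empty] at hv
  exact (ENNReal.ofReal_pos.2 ha).ne hv

theorem vols {N : ℕ} {c : ℝ} (hc : 0 < c) {A B : Set (E N)} (hA : IsOpen A) (hB : IsOpen B)
    (hd : Disjoint A B) (hAne : A.Nonempty) (hBne : B.Nonempty)
    (hv : volume (A ∪ B) = ENNReal.ofReal c) :
    ∃ a b : ℝ, 0 < a ∧ 0 < b ∧ a + b = c ∧ volume A = ENNReal.ofReal a ∧
      volume B = ENNReal.ofReal b := by
  have h1 : volume A + volume B = ENNReal.ofReal c := by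
    rw [← measure_union hd hB.measurableSet, hv]
  have hAf : volume A ≠ ⊤ := by
    intro h
    rw [h, top_add] at h1
    exact ENNReal.ofReal_ne_top h1.symm
  have hBf : volume B ≠ ⊤ := by
    intro h
    rw [h, add_top] at h1
    exact ENNReal.ofReal_ne_top h1.symm
  refine ⟨(volume A).toReal, (volume B).toReal,
    ENNReal.toReal_pos (hA.measure_pos _ hAne).ne' hAf,
    ENNReal.toReal_pos (hB.measure_pos _ hBne).ne' hBf, ?_,
    (ENNReal.ofReal_toReal hAf).symm, (ENNReal.ofReal_toReal hBf).symm⟩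
  rw [← ENNReal.toReal_add hAf hBf, h1, ENNReal.toReal_ofReal hc.le]

/-- normalisation of the volume -/
theorem norm_vol {N : ℕ} (hN : 1 ≤ N) {c : ℝ} (hc : 0 < c) {W : Set (E N)} (hW : IsOpen W)
    (hne : W.Nonempty) (hv : volume W ≤ ENNReal.ofReal c) :
    ∃ Ω' : Set (E N), IsOpen Ω' ∧ volume Ω' = ENNReal.ofReal c ∧
      ∀ k, 1 ≤ k → ∀ e ∈ RaySet N k W, e ∈ RaySet N k Ω' := by
  have hfin : volume W ≠ ⊤ := (hv.trans_lt ENNReal.ofReal_lt_top).ne
  set v : ℝ := (volume W).toReal with hvdef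
  have hv0 : 0 < v := ENNReal.toReal_pos (hW.measure_pos _ hne).ne' hfin
  have hvv : volume W = ENNReal.ofReal v := (ENNReal.ofReal_toReal hfin).symm
  have hv1 : v ≤ c := by
    rw [hvv, ENNReal.ofReal_le_ofReal_iff hc.le] at hv
    exact hv
  obtain ⟨s, hs, hsv⟩ := exists_root hN (show 0 < c / v by positivity)
  have hs1 : 1 ≤ s := by
    by_contra hcon
    push Not at hcon
    have h1 : s ^ N < 1 := pow_lt_one₀ hs.le hcon (by omega)
    rw [hsv, div_lt_one hv0] at h1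
    linarith
  refine ⟨(fun x : E N => s • x) '' W, scale_open hW hs, ?_, ?_⟩
  · rw [scale_volume N _ s hs, hvv, ← ENNReal.ofReal_mul (by positivity), hsv,
      div_mul_cancel₀ _ hv0.ne']
  · intro k hk e he
    refine ray_mono le_rfl ?_ (scale_ray N k W s hs e he)
    apply div_le_self (raySet_nonneg N k hk W e he)
    exact one_le_pow₀ hs1

/-- a set of smaller volume, blown up to volume `c` -/
theorem blow_up {N : ℕ} (hN : 1 ≤ N) {a c : ℝ} (ha : 0 < a) (hac : a < c) {A : Set (E N)}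
    (hA : IsOpen A) (hva : volume A = ENNReal.ofReal a) :
    ∃ s : ℝ, 1 < s ∧ s ^ N = c / a ∧ IsOpen ((fun x : E N => s • x) '' A) ∧
      volume ((fun x : E N => s • x) '' A) = ENNReal.ofReal c ∧
      ∀ k, 1 ≤ k → s ^ 2 * lam N k ((fun x : E N => s • x) '' A) ≤ lam N k A := by
  have hc : 0 < c := ha.trans hac
  obtain ⟨s, hs, hsv⟩ := exists_root hN (show 0 < c / a by positivity)
  have hs1 : 1 < s := by
    by_contra hcon
    push Not at hcon
    have h1 : s ^ N ≤ 1 := pow_le_one₀ hs.le hcon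
    rw [hsv, div_le_one ha] at h1
    linarith
  refine ⟨s, hs1, hsv, scale_open hA hs, ?_, fun k hk => lam_scale hN hk hA (ne_of_vol ha hva) hs⟩
  rw [scale_volume N _ s hs, hva, ← ENNReal.ofReal_mul (by positivity), hsv,
      div_mul_cancel₀ _ ha.ne']

theorem lam_pos {N : ℕ} (hN : 2 ≤ N) {a : ℝ} (ha : 0 < a) {A : Set (E N)} (hA : IsOpen A)
    (hva : volume A = ENNReal.ofReal a) : 0 < lam N 1 A :=
  lam_one_pos hN hA (ne_of_vol ha hva) (by rw [hva]; exact ENNReal.ofReal_ne_top)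

/-- the value of a disconnected minimiser -/
theorem min_lower {N : ℕ} (hN : 2 ≤ N) {c t : ℝ} (hc : 0 < c) (ht0 : 0 ≤ t) (ht1 : t ≤ 1)
    {A B : Set (E N)} (hA : IsOpen A) (hB : IsOpen B) (hd : Disjoint A B) (hAne : A.Nonempty)
    (hBne : B.Nonempty) (hle : lam N 1 A ≤ lam N 1 B) (hmin : IsMin N c t (A ∪ B)) :
    t * lam N 1 A + (1 - t) * lam N 1 B ≤ FF N t (A ∪ B) := by
  have hN1 : 1 ≤ N := by omega
  obtain ⟨-, hv, hopt⟩ := hmin
  obtain ⟨a, b, ha, hb, hab, hva, hvb⟩ := vols hc hA hB hd hAne hBne hv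
  have h1 := lam_one_union hN1 hA hB hd hAne hle
  have h2 := lam_two_union hN1 hA hB hd hAne
  have h1' := mul_le_mul_of_nonneg_left h1 ht0
  have h1t : 0 ≤ 1 - t := by linarith
  by_cases hcase : lam N 1 B ≤ lam N 2 A
  · rw [min_eq_left hcase] at h2
    have h2' := mul_le_mul_of_nonneg_left h2 h1t
    unfold FF
    linarith
  · exfalso
    push Not at hcase
    rw [min_eq_right hcase.le] at h2
    have h2' := mul_le_mul_of_nonneg_left h2 h1t
    have hFA : FF N t A ≤ FF N t (A ∪ B) := by unfold FF; linarith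
    obtain ⟨s, hs1, -, hso, hsv, hsl⟩ := blow_up hN1 ha (show a < c by linarith) hA hva
    have h3 := hopt _ hso hsv
    have l1 := hsl 1 le_rfl
    have l2 := hsl 2 (by norm_num)
    have hpos1 := lam_pos hN ha hA hva
    have hpos2 : 0 < lam N 2 A := hpos1.trans_le (lam_one_le_two hN1 hA hAne)
    have hFpos : 0 < FF N t A := by
      unfold FF
      rcases ht0.eq_or_lt with h | h
      · rw [← h]; simpa using hpos2
      · have := mul_pos h hpos1
        have := mul_nonneg h1t hpos2.le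
        linarith
    have h4 : s ^ 2 * FF N t ((fun x : E N => s • x) '' A) ≤ FF N t A := by
      unfold FF
      have e1 := mul_le_mul_of_nonneg_left l1 ht0
      have e2 := mul_le_mul_of_nonneg_left l2 h1t
      nlinarith
    have hs2 : 1 < s ^ 2 := one_lt_pow₀ hs1 (by norm_num)
    have h5 : FF N t A ≤ FF N t ((fun x : E N => s • x) '' A) := hFA.trans h3
    have h6 : FF N t A < s ^ 2 * FF N t A := by nlinarith
    have h7 : s ^ 2 * FF N t A ≤ s ^ 2 * FF N t ((fun x : E N => s • x) '' A) :=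
      mul_le_mul_of_nonneg_left h5 (by positivity)
    linarith

/-- no disconnected minimiser for `t = 1` -/
theorem not_min_one {N : ℕ} (hN : 2 ≤ N) {c : ℝ} (hc : 0 < c)
    {A B : Set (E N)} (hA : IsOpen A) (hB : IsOpen B) (hd : Disjoint A B) (hAne : A.Nonempty)
    (hBne : B.Nonempty) (hle : lam N 1 A ≤ lam N 1 B) (hmin : IsMin N c 1 (A ∪ B)) : False := by
  have hN1 : 1 ≤ N := by omega
  have hlow := min_lower hN hc zero_le_one le_rfl hA hB hd hAne hBne hle hmin
  obtain ⟨-, hv, hopt⟩ := hmin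
  obtain ⟨a, b, ha, hb, hab, hva, hvb⟩ := vols hc hA hB hd hAne hBne hv
  obtain ⟨s, hs1, -, hso, hsv, hsl⟩ := blow_up hN1 ha (show a < c by linarith) hA hva
  have h3 := hopt _ hso hsv
  have l1 := hsl 1 le_rfl
  have hpos1 := lam_pos hN ha hA hva
  have hs2 : 1 < s ^ 2 := one_lt_pow₀ hs1 (by norm_num)
  unfold FF at h3 hlow
  have h5 : lam N 1 A ≤ lam N 1 ((fun x : E N => s • x) '' A) := by linarith
  have h7 : s ^ 2 * lam N 1 A ≤ s ^ 2 * lam N 1 ((fun x : E N => s • x) '' A) :=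
    mul_le_mul_of_nonneg_left h5 (by positivity)
  have h6 : lam N 1 A < s ^ 2 * lam N 1 A := by nlinarith
  linarith

/-- a disconnected minimiser contains a minimiser of the first eigenvalue -/
theorem exists_G {N : ℕ} (hN : 2 ≤ N) {c t : ℝ} (hc : 0 < c) (ht0 : 0 < t) (ht1 : t < 1)
    {A B : Set (E N)} (hA : IsOpen A) (hB : IsOpen B) (hd : Disjoint A B) (hAne : A.Nonempty)
    (hBne : B.Nonempty) (hle : lam N 1 A ≤ lam N 1 B) (hmin : IsMin N c t (A ∪ B)) :
    ∃ G : Set (E N), IsOpen G ∧ volume G = ENNReal.ofReal c ∧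
      ∀ Ω' : Set (E N), IsOpen Ω' → volume Ω' = ENNReal.ofReal c → lam N 1 G ≤ lam N 1 Ω' := by
  have hN1 : 1 ≤ N := by omega
  have : NeZero N := ⟨by omega⟩
  have hlow := min_lower hN hc ht0.le ht1.le hA hB hd hAne hBne hle hmin
  obtain ⟨-, hv, hopt⟩ := hmin
  obtain ⟨a, b, ha, hb, hab, hva, hvb⟩ := vols hc hA hB hd hAne hBne hv
  have claim : ∀ H : Set (E N), IsOpen H → volume H = volume A → lam N 1 A ≤ lam N 1 H := by
    intro H hH hHv
    by_contra hlt
    push Not at hlt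
    have hHne : H.Nonempty := ne_of_vol ha (hHv.trans hva)
    obtain ⟨e1, he1, he1lt⟩ : ∃ e1 ∈ RaySet N 1 H, e1 < lam N 1 A :=
      exists_lt_of_csInf_lt (raySet_nonempty N 1 hN1 H hH hHne) hlt
    set δ : ℝ := t * (lam N 1 A - e1) / 2 with hδ
    have hδ0 : 0 < δ := by
      have : 0 < t * (lam N 1 A - e1) := mul_pos ht0 (by linarith)
      rw [hδ]; linarith
    obtain ⟨e2, he2, he2lt⟩ : ∃ e2 ∈ RaySet N 1 B, e2 < lam N 1 B + δ :=
      exists_lt_of_csInf_lt (raySet_nonempty N 1 hN1 B hB hBne)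
        (show sInf (RaySet N 1 B) < lam N 1 B + δ by
          have : lam N 1 B < lam N 1 B + δ := by linarith
          exact this)
    set e3 : ℝ := max e1 e2 with he3
    have he3lt : e3 < lam N 1 B + δ := max_lt (by linarith) he2lt
    obtain ⟨M1, hM1, q1⟩ := ray_bounded he1
    obtain ⟨M2, hM2, q2⟩ := ray_bounded (ray_mono le_rfl (le_max_right e1 e2) he2)
    obtain ⟨ω, hω⟩ : ∃ ω : E N, ‖ω‖ = 1 := ⟨EuclideanSpace.single 0 1, by simp⟩
    have q3 := ray_translate ((M1 + M2) • ω) q1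
    set A1 : Set (E N) := B ∩ ball 0 M2 with hA1
    set A2 : Set (E N) := (fun x : E N => x + (M1 + M2) • ω) '' (H ∩ ball 0 M1) with hA2
    have hdis : Disjoint A2 A1 := by
      rw [Set.disjoint_left]
      rintro _ ⟨z, ⟨-, hz⟩, rfl⟩ ⟨-, hy⟩
      rw [mem_ball_zero_iff] at hy hz
      have h2 : ‖(M1 + M2) • ω‖ = M1 + M2 := by
        rw [norm_smul, hω, mul_one, Real.norm_of_nonneg (by linarith)]
      have h3 : ‖(M1 + M2) • ω‖ ≤ ‖z + (M1 + M2) • ω‖ + ‖z‖ := by
        calc ‖(M1 + M2) • ω‖ = ‖(z + (M1 + M2) • ω) - z‖ := by congr 1; abel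
          _ ≤ _ := norm_sub_le _ _
      have h4 : ‖z + (M1 + M2) • ω‖ < M2 := hy
      linarith
    have hray2 : e3 ∈ RaySet N 2 (A2 ∪ A1) :=
      ray_union hdis (ray_mono le_rfl (le_max_left e1 e2) q3) q2
    have hray1 : e1 ∈ RaySet N 1 (A2 ∪ A1) := ray_mono Set.subset_union_left le_rfl q3
    have hA1o : IsOpen A1 := hB.inter isOpen_ball
    have hA2o : IsOpen A2 :=
      (Homeomorph.addRight ((M1 + M2) • ω)).isOpenMap _ (hH.inter isOpen_ball)
    have hvol2 : volume A2 ≤ ENNReal.ofReal a := by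
      have h2 : volume A2 = volume (H ∩ ball 0 M1) := by
        rw [hA2, Set.image_add_right, measure_preimage_add_right]
      rw [h2, ← hva, ← hHv]
      exact measure_mono Set.inter_subset_left
    have hvol1 : volume A1 ≤ ENNReal.ofReal b := by
      rw [← hvb]
      exact measure_mono Set.inter_subset_left
    have hvolW : volume (A2 ∪ A1) ≤ ENNReal.ofReal c := by
      refine (measure_union_le _ _).trans ((add_le_add hvol2 hvol1).trans ?_)
      rw [← ENNReal.ofReal_add ha.le hb.le, hab]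
    have hWne : (A2 ∪ A1).Nonempty := by
      by_contra hemp
      rw [Set.not_nonempty_iff_eq_empty] at hemp
      obtain ⟨V, hV, hVv⟩ := hray1
      have hVb : V ≠ ⊥ := by
        rintro rfl
        rw [finrank_bot] at hV
        omega
      obtain ⟨v, hvV, hv0⟩ := Submodule.exists_mem_ne_zero_of_ne_bot hVb
      obtain ⟨x, hx⟩ := Function.ne_iff.1 hv0
      have := (hVv v hvV).2.2.1 (subset_tsupport v hx)
      rw [hemp] at this
      exact this
    obtain ⟨Ω', o', v', hr'⟩ := norm_vol hN1 hc (hA2o.union hA1o) hWne hvolW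
    have f1 := lam_le N 1 le_rfl Ω' e1 (hr' 1 le_rfl e1 hray1)
    have f2 := lam_le N 2 (by norm_num) Ω' e3 (hr' 2 (by norm_num) e3 hray2)
    have f3 := hopt Ω' o' v'
    have f4 : FF N t Ω' ≤ t * e1 + (1 - t) * e3 := by
      unfold FF
      have g1 := mul_le_mul_of_nonneg_left f1 ht0.le
      have g2 := mul_le_mul_of_nonneg_left f2 (show 0 ≤ 1 - t by linarith)
      linarith
    have f5 : (1 - t) * e3 ≤ (1 - t) * (lam N 1 B + δ) :=
      mul_le_mul_of_nonneg_left he3lt.le (by linarith)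
    have f6 : (1 - t) * δ ≤ δ := by nlinarith
    have f7 : t * (lam N 1 A - e1) = 2 * δ := by rw [hδ]; ring
    nlinarith
  obtain ⟨s, hs1, hsN, hso, hsv, hsl⟩ := blow_up hN1 ha (show a < c by linarith) hA hva
  have hs : 0 < s := by linarith
  refine ⟨_, hso, hsv, ?_⟩
  intro Ω' o' v'
  have hs' : 0 < s⁻¹ := inv_pos.2 hs
  have hH : volume ((fun x : E N => s⁻¹ • x) '' Ω') = volume A := by
    rw [scale_volume N _ s⁻¹ hs', v', hva, ← ENNReal.ofReal_mul (by positivity), inv_pow, hsN]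
    congr 1
    field_simp
  have h1 := claim _ (scale_open o' hs') hH
  have h2 := lam_scale (k := 1) hN1 le_rfl o' (ne_of_vol hc v') hs'
  have h3 := hsl 1 le_rfl
  have h4 : s ^ 2 * lam N 1 ((fun x : E N => s • x) '' A) ≤ s ^ 2 * lam N 1 Ω' := by
    calc s ^ 2 * lam N 1 ((fun x : E N => s • x) '' A) ≤ lam N 1 A := h3
      _ ≤ lam N 1 ((fun x : E N => s⁻¹ • x) '' Ω') := h1
      _ = s ^ 2 * (s⁻¹ ^ 2 * lam N 1 ((fun x : E N => s⁻¹ • x) '' Ω')) := by
          field_simp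
      _ ≤ s ^ 2 * lam N 1 Ω' := mul_le_mul_of_nonneg_left h2 (by positivity)
  exact le_of_mul_le_mul_left h4 (by positivity)

end Pool.Agent.Y247.CN
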