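import Pool.Agent.Y247.KB.Main

/-!
# Eigenvalues of disjoint unions
-/

set_option autoImplicit false

open MeasureTheory Filter Topology Metric

namespace Pool.Agent.Y247.CN

open Pool.Agent.Helper949.TB Pool.Agent.Y247.KB

theorem decomp {N : ℕ} {ι : Type} [Fintype ι] [DecidableEq ι] (U : ι → Set (E N))
    (hU : ∀ i, IsOpen (U i)) (hd : Pairwise fun i j => Disjoint (U i) (U j))
    (f : E N → ℝ) (hf : IsTest (⋃ i, U i) f) :
    (∀ i, IsTest (U i) (Set.indicator (U i) f)) ∧
    (∫ x, f x ^ 2 = ∑ i, ∫ x, (Set.indicator (U i) f) x ^ 2) ∧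
    (∫ x, ‖fderiv ℝ f x‖ ^ 2 = ∑ i, ∫ x, ‖fderiv ℝ (Set.indicator (U i) f) x‖ ^ 2) := by
  obtain ⟨hsm, hcs, hts⟩ := hf
  let g : ι → E N → ℝ := fun i => Set.indicator (U i) f
  -- local description
  have hin : ∀ i x, x ∈ U i → g i =ᶠ[𝓝 x] f := by
    intro i x hx
    filter_upwards [(hU i).mem_nhds hx] with y hy
    exact Set.indicator_of_mem hy f
  have hout : ∀ i j x, i ≠ j → x ∈ U i → g j =ᶠ[𝓝 x] 0 := by
    intro i j x hij hx
    filter_upwards [(hU i).mem_nhds hx] with y hy
    exact Set.indicator_of_notMem (fun h => Set.disjoint_left.1 (hd hij) hy h) f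
  have hfar0 : ∀ x, (∀ i, x ∉ U i) → f =ᶠ[𝓝 x] 0 := by
    intro x hx
    rw [← notMem_tsupport_iff_eventuallyEq]
    intro h
    obtain ⟨i, hi⟩ := Set.mem_iUnion.1 (hts h)
    exact hx i hi
  have hfar : ∀ j x, (∀ i, x ∉ U i) → g j =ᶠ[𝓝 x] 0 := by
    intro j x hx
    filter_upwards [hfar0 x hx] with y hy
    show Set.indicator (U j) f y = 0
    by_cases h : y ∈ U j
    · rw [Set.indicator_of_mem h]; exact hy
    · exact Set.indicator_of_notMem h f
  have hgs : ∀ i, ContDiff ℝ (⊤ : ℕ∞) (g i) := by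
    intro i
    rw [contDiff_iff_contDiffAt]
    intro x
    by_cases h : ∃ j, x ∈ U j
    · obtain ⟨j, hj⟩ := h
      by_cases hij : j = i
      · rw [hij] at hj
        exact hsm.contDiffAt.congr_of_eventuallyEq (hin i x hj)
      · exact contDiffAt_const.congr_of_eventuallyEq (hout j i x hij hj)
    · push Not at h
      exact contDiffAt_const.congr_of_eventuallyEq (hfar i x h)
  have hsub : ∀ i, Function.support (g i) ⊆ Function.support f := by
    intro i x hx
    rw [Function.mem_support] at hx ⊢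
    intro h0
    apply hx
    show Set.indicator (U i) f x = 0
    by_cases h : x ∈ U i
    · rw [Set.indicator_of_mem h]; exact h0
    · exact Set.indicator_of_notMem h f
  have hgc : ∀ i, HasCompactSupport (g i) := fun i => hcs.mono (hsub i)
  have hgt : ∀ i, tsupport (g i) ⊆ U i := by
    intro i x hx
    have hx' : x ∈ tsupport f := closure_mono (hsub i) hx
    obtain ⟨j, hj⟩ := Set.mem_iUnion.1 (hts hx')
    by_cases hij : j = i
    · rwa [hij] at hj
    · exfalso
      exact (notMem_tsupport_iff_eventuallyEq.2 (hout j i x hij hj)) hx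
  have hzero : ∀ j x, g j =ᶠ[𝓝 x] 0 → g j x = 0 ∧ fderiv ℝ (g j) x = 0 := by
    intro j x h
    refine ⟨h.self_of_nhds, ?_⟩
    rw [h.fderiv_eq]
    exact fderiv_const_apply (0:ℝ)
  have hpt : ∀ x, f x ^ 2 = ∑ i, g i x ^ 2 ∧ ‖fderiv ℝ f x‖ ^ 2 = ∑ i, ‖fderiv ℝ (g i) x‖ ^ 2 := by
    intro x
    by_cases h : ∃ j, x ∈ U j
    · obtain ⟨j, hj⟩ := h
      constructor
      · rw [Finset.sum_eq_single j]
        · rw [(hin j x hj).self_of_nhds]
        · intro i _ hij
          rw [(hzero i x (hout j i x (Ne.symm hij) hj)).1]; norm_num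
        · intro h; exact absurd (Finset.mem_univ _) h
      · rw [Finset.sum_eq_single j]
        · rw [(hin j x hj).fderiv_eq]
        · intro i _ hij
          rw [(hzero i x (hout j i x (Ne.symm hij) hj)).2, norm_zero]; norm_num
        · intro h; exact absurd (Finset.mem_univ _) h
    · push Not at h
      have e1 : f x = 0 := (hfar0 x h).self_of_nhds
      have e2 : fderiv ℝ f x = 0 := by
        rw [(hfar0 x h).fderiv_eq]
        exact fderiv_const_apply (0:ℝ)
      constructor
      · rw [e1, Finset.sum_eq_zero]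
        · norm_num
        · intro i _
          rw [(hzero i x (hfar i x h)).1]; norm_num
      · rw [e2, norm_zero, Finset.sum_eq_zero]
        · norm_num
        · intro i _
          rw [(hzero i x (hfar i x h)).2, norm_zero]; norm_num
  have hi1 : ∀ i, Integrable (fun x => g i x ^ 2) := fun i => aux_int1 (g i) (hgs i) (hgc i)
  have hi2 : ∀ i, Integrable (fun x => ‖fderiv ℝ (g i) x‖ ^ 2) :=
    fun i => aux_int2 (g i) (hgs i) (hgc i)
  have e1 : ∫ x, f x ^ 2 = ∑ i, ∫ x, g i x ^ 2 := by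
    rw [← integral_finset_sum _ (fun i _ => hi1 i)]
    exact integral_congr_ae (Filter.Eventually.of_forall (fun x => (hpt x).1))
  have e2 : ∫ x, ‖fderiv ℝ f x‖ ^ 2 = ∑ i, ∫ x, ‖fderiv ℝ (g i) x‖ ^ 2 := by
    rw [← integral_finset_sum _ (fun i _ => hi2 i)]
    exact integral_congr_ae (Filter.Eventually.of_forall (fun x => (hpt x).2))
  exact ⟨fun i => ⟨hgs i, hgc i, hgt i⟩, e1, e2⟩

theorem decomp_two {N : ℕ} {A B : Set (E N)} (hA : IsOpen A) (hB : IsOpen B) (hd : Disjoint A B)
    {f : E N → ℝ} (hf : IsTest (A ∪ B) f) :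
    IsTest A (Set.indicator A f) ∧ IsTest B (Set.indicator B f) ∧
    (∫ x, f x ^ 2 = (∫ x, (Set.indicator A f) x ^ 2) + ∫ x, (Set.indicator B f) x ^ 2) ∧
    (∫ x, ‖fderiv ℝ f x‖ ^ 2 = (∫ x, ‖fderiv ℝ (Set.indicator A f) x‖ ^ 2) +
      ∫ x, ‖fderiv ℝ (Set.indicator B f) x‖ ^ 2) := by
  have hun : (⋃ i : Bool, (fun i : Bool => if i then A else B) i) = A ∪ B := by
    ext x
    simp only [Set.mem_iUnion, Bool.exists_bool, if_true, Bool.false_eq_true, if_false,
      Set.mem_union]
    exact or_comm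
  obtain ⟨h1, h2, h3⟩ := decomp (fun i : Bool => if i then A else B)
    (by intro i; cases i <;> simp [hA, hB])
    (by
      intro i j hij
      cases i <;> cases j <;> simp_all [disjoint_comm])
    f (by rw [hun]; exact hf)
  refine ⟨by simpa using h1 true, by simpa using h1 false, ?_, ?_⟩
  · rw [h2, Fintype.sum_bool]
    simp
  · rw [h3, Fintype.sum_bool]
    simp

/-- an eigenvalue bound below the first eigenvalue of `B` comes from `A` -/
theorem ray_drop {N k : ℕ} {A B : Set (E N)} (hA : IsOpen A) (hB : IsOpen B) (hd : Disjoint A B)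
    {c : ℝ} (hc : c ∈ RaySet N k (A ∪ B)) (hcB : c < lam N 1 B) : c ∈ RaySet N k A := by
  classical
  obtain ⟨V, hV, hv⟩ := hc
  -- the restriction map
  let R : (E N → ℝ) →ₗ[ℝ] (E N → ℝ) :=
    { toFun := fun f => Set.indicator A f
      map_add' := fun f g => Set.indicator_add A f g
      map_smul' := fun a f => Set.indicator_const_smul A a f }
  have hR : ∀ f, R f = Set.indicator A f := fun _ => rfl
  have key : ∀ v ∈ V, (∫ x, ‖fderiv ℝ (Set.indicator A v) x‖ ^ 2 ≤
      c * ∫ x, (Set.indicator A v) x ^ 2) ∧ (R v = 0 → v = 0) ∧ IsTest A (Set.indicator A v) := by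
    intro v hvV
    obtain ⟨h1, h2, h3, h4⟩ := hv v hvV
    obtain ⟨t1, t2, t3, t4⟩ := decomp_two hA hB hd (f := v) ⟨h1, h2, h3⟩
    have h5 := lam_one_ineq t2
    have h6 : 0 ≤ ∫ x, (Set.indicator B v) x ^ 2 := integral_nonneg fun x => sq_nonneg _
    have h7 : c * ∫ x, (Set.indicator B v) x ^ 2 ≤ lam N 1 B * ∫ x, (Set.indicator B v) x ^ 2 :=
      mul_le_mul_of_nonneg_right hcB.le h6
    rw [t3, t4, mul_add] at h4
    refine ⟨by linarith, ?_, t1⟩
    intro hz
    rw [hR] at hz
    rw [hz] at h4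
    have e1 : ∫ x, ‖fderiv ℝ (0 : E N → ℝ) x‖ ^ 2 = 0 := by
      simp
    have e2 : ∫ x, ((0 : E N → ℝ) x) ^ 2 = 0 := by simp
    rw [e1, e2, mul_zero, zero_add, zero_add] at h4
    have h8 : ∫ x, (Set.indicator B v) x ^ 2 = 0 := by
      by_contra hne
      have hpos : 0 < ∫ x, (Set.indicator B v) x ^ 2 := lt_of_le_of_ne h6 (Ne.symm hne)
      have := mul_lt_mul_of_pos_right hcB hpos
      linarith
    have h9 : ∫ x, v x ^ 2 = 0 := by
      rw [t3, h8, hz]
      simp
    by_contra hv0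
    obtain ⟨x, hx⟩ := Function.ne_iff.1 hv0
    have hpos : 0 < ∫ x, v x ^ 2 := by
      have hs2 : HasCompactSupport (fun x => v x ^ 2) := by
        refine h2.mono ?_
        intro x hx
        rw [Function.mem_support] at hx ⊢
        intro h0
        rw [h0] at hx
        norm_num at hx
      apply (h1.continuous.pow 2).integral_pos_of_hasCompactSupport_nonneg_nonzero hs2
        (fun x => sq_nonneg _) (x := x)
      exact pow_ne_zero 2 hx
    linarith
  have hinj : Function.Injective (R.domRestrict V) := by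
    rw [← LinearMap.ker_eq_bot, LinearMap.ker_eq_bot']
    intro v hv0
    have := (key v v.2).2.1 hv0
    exact Subtype.ext this
  refine ⟨V.map R, ?_, ?_⟩
  · rw [← hV, ← LinearMap.range_domRestrict, LinearMap.finrank_range_of_inj hinj]
  · rintro _ ⟨v, hvV, rfl⟩
    obtain ⟨k1, -, k3⟩ := key v hvV
    exact ⟨k3.1, k3.2.1, k3.2.2, k1⟩

theorem lam_one_union {N : ℕ} (hN : 1 ≤ N) {A B : Set (E N)} (hA : IsOpen A) (hB : IsOpen B)
    (hd : Disjoint A B) (hne : A.Nonempty) (hle : lam N 1 A ≤ lam N 1 B) :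
    lam N 1 A ≤ lam N 1 (A ∪ B) := by
  apply lam_lower N 1 le_rfl _ (hA.union hB) (hne.mono Set.subset_union_left) hN
  intro f hf
  obtain ⟨t1, t2, t3, t4⟩ := decomp_two hA hB hd hf
  rw [t3, t4, mul_add]
  have h6 : 0 ≤ ∫ x, (Set.indicator B f) x ^ 2 := integral_nonneg fun x => sq_nonneg _
  have h1 := lam_one_ineq t1
  have h2 := lam_one_ineq t2
  have h3 := mul_le_mul_of_nonneg_right hle h6
  linarith

theorem lam_two_union {N : ℕ} (hN : 1 ≤ N) {A B : Set (E N)} (hA : IsOpen A) (hB : IsOpen B)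
    (hd : Disjoint A B) (hne : A.Nonempty) :
    min (lam N 1 B) (lam N 2 A) ≤ lam N 2 (A ∪ B) := by
  apply le_csInf (raySet_nonempty N 2 hN _ (hA.union hB) (hne.mono Set.subset_union_left))
  intro c hc
  by_cases h : c < lam N 1 B
  · exact (min_le_right _ _).trans (lam_le N 2 (by norm_num) A c (ray_drop hA hB hd hc h))
  · push Not at h
    exact (min_le_left _ _).trans h

end Pool.Agent.Y247.CN
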